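import Pool.Agent.N971.EX.Sgn

/-!
# The sign of the even symbol of level `17`
-/

set_option autoImplicit false
set_option linter.unusedSectionVars false

open UpperHalfPlane MatrixGroups CongruenceSubgroup Filter Topology MeasureTheory Set

namespace Pool.Agent.N971.EX

open Pool.Agent.N974.Gen
open Pool.Agent.N809.M17 (f17 X0 eigen17 param17 tors0)
open Pool.Agent.W97.MT (const_of_deriv ap affCount)

theorem exp_17c (n : ℕ) (x : ℝ) : (Complex.exp (2 * Real.pi * Complex.I * n *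
    (((x : ℂ) + Complex.I) / 17))).re = rr17 ^ n * Real.cos (2 * Real.pi * n * x / 17) := by
  have e : (2 * Real.pi * Complex.I * n * (((x : ℂ) + Complex.I) / 17) : ℂ) =
      ((n * (-(2 * Real.pi / 17)) : ℝ) : ℂ) + ((2 * Real.pi * n * x / 17 : ℝ) : ℂ) * Complex.I := by
    push_cast
    linear_combination (2 * Real.pi * n / 17 : ℂ) * Complex.I_sq
  rw [e, Complex.exp_add, ← Complex.ofReal_exp, Complex.re_ofReal_mul, Complex.exp_ofReal_mul_I_re]
  congr 1
  unfold rr17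
  rw [← Real.exp_nat_mul]

/-- the real part of the primitive -/
theorem F_re (x : ℝ) : HasSum (fun n : ℕ => (cf f17 n).re / n *
    (rr17 ^ n * Real.cos (2 * Real.pi * n * x / 17)))
    (F f17 (((x : ℂ) + Complex.I) / 17)).re := by
  have hz : 0 < (((x : ℂ) + Complex.I) / 17).im := by
    have : (((x : ℂ) + Complex.I) / 17).im = 1 / 17 := by
      rw [Complex.div_im]
      simp [Complex.normSq]
    rw [this]; norm_num
  have hr0 := rr_pos
  have hr1 : rr17 < 1 := lt_of_le_of_lt rr_le (by norm_num)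
  rw [← prim_eq f17 hz]
  have hs : Summable (fun n : ℕ => (qExpansion 1 f17).coeff n / n *
      Complex.exp (2 * Real.pi * Complex.I * n * (((x : ℂ) + Complex.I) / 17))) := by
    refine Summable.of_norm_bounded (g := fun n : ℕ => 2 * rr17 ^ n)
      ((summable_geometric_of_lt_one hr0.le hr1).mul_left 2) fun n => ?_
    rcases Nat.eq_zero_or_pos n with rfl | hn
    · simp
    · rw [norm_mul, norm_17, norm_div, Complex.norm_natCast]
      have h1 : ‖(qExpansion 1 f17).coeff n‖ = |(cf f17 n).re| := by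
        have h2 := cf_re eigen17 n
        conv_lhs => rw [show (qExpansion 1 f17).coeff n = cf f17 n from rfl, h2, Complex.norm_real,
          Real.norm_eq_abs]
      have h2 := cf_le eigen17 n hn
      have hn0 : (0 : ℝ) < n := by exact_mod_cast hn
      rw [h1]
      have h3 : |(cf f17 n).re| / n ≤ 2 := by
        rw [div_le_iff₀ hn0]
        exact h2
      have h4 : (0 : ℝ) ≤ rr17 ^ n := pow_nonneg hr0.le n
      nlinarith
  have h1 := ((Complex.hasSum_iff _ _).1 hs.hasSum).1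
  unfold TH940.prim
  refine h1.congr_fun ?_ |> fun h => h
  intro n
  have h2 := cf_re eigen17 n
  rw [show (qExpansion 1 f17).coeff n = cf f17 n from rfl, h2]
  have e : (((cf f17 n).re : ℂ) / n : ℂ) = (((cf f17 n).re / n : ℝ) : ℂ) := by push_cast; rfl
  rw [e, Complex.re_ofReal_mul, exp_17c]
  simp

theorem ap17_7 : ap E17 7 = 4 := by
  have h : affCount E17 7 = 3 := by rw [aff_eq]; decide
  unfold ap
  rw [h]
  norm_num

theorem coefs2 : (cf f17 7).re = 4 ∧ (cf f17 8).re = 3 := by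
  have h1 := cf_one eigen17
  have h2 := cf_prime eigen17 2 Nat.prime_two
  have h7 := cf_prime eigen17 7 (by norm_num)
  have h4 := cf_pow eigen17 2 0 Nat.prime_two
  have h8 := cf_pow eigen17 2 1 Nat.prime_two
  simp only [ap17_2, ap17_7] at h2 h7
  have h17 : ¬ (2 ∣ 17) := by norm_num
  rw [if_neg h17, pow_zero, zero_add, pow_one, h2, h1] at h4
  rw [if_neg h17, pow_one, h2] at h8
  norm_num at h4 h8
  rw [h4] at h8
  norm_num at h8
  refine ⟨?_, ?_⟩
  · rw [h7]; simp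
  · rw [h8]; simp

/-- the difference of the cosines -/
noncomputable def uc (n : ℕ) : ℝ :=
  Real.cos (2 * Real.pi * n * 6 / 17) - Real.cos (2 * Real.pi * n * (-3) / 17)

theorem uc_le (n : ℕ) : |uc n| ≤ 2 := by
  unfold uc
  have h1 := Real.abs_cos_le_one (2 * Real.pi * n * 6 / 17)
  have h2 := Real.abs_cos_le_one (2 * Real.pi * n * (-3) / 17)
  rw [abs_le] at *
  constructor <;> linarith [h1.1, h1.2, h2.1, h2.2]

theorem uc1 : uc 1 ≤ -1.009 := by
  have hpi := Real.pi_pos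
  have hp1 := Real.pi_gt_d4
  have hp2 := Real.pi_lt_d4
  unfold uc
  have e1 : 2 * Real.pi * ((1 : ℕ) : ℝ) * 6 / 17 = Real.pi - 5 * Real.pi / 17 := by
    push_cast; ring
  have e2 : 2 * Real.pi * ((1 : ℕ) : ℝ) * (-3) / 17 = -(6 * Real.pi / 17) := by push_cast; ring
  rw [e1, e2, Real.cos_pi_sub, Real.cos_neg]
  have h1 := Real.one_sub_sq_div_two_le_cos (x := 5 * Real.pi / 17)
  have h2 : Real.cos (6 * Real.pi / 17) = Real.sin (5 * Real.pi / 34) := by
    rw [← Real.cos_pi_div_two_sub]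
    congr 1
    ring
  have h3 := Real.sin_gt_sub_cube (x := 5 * Real.pi / 34) (by positivity)
  have h4 : (5 * Real.pi / 17) ^ 2 ≤ 0.924 ^ 2 := by
    refine pow_le_pow_left₀ (by positivity) ?_ 2
    linarith
  have h5 : (5 * Real.pi / 34) ^ 3 ≤ 0.46201 ^ 3 := by
    refine pow_le_pow_left₀ (by positivity) ?_ 3
    linarith
  rw [h2]
  norm_num at h4 h5 ⊢
  linarith

theorem uc2 : 0 ≤ uc 2 := by
  have hpi := Real.pi_pos
  unfold uc
  have e1 : 2 * Real.pi * ((2 : ℕ) : ℝ) * 6 / 17 = 7 * Real.pi / 17 + Real.pi := by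
    push_cast; ring
  have e2 : 2 * Real.pi * ((2 : ℕ) : ℝ) * (-3) / 17 = -(Real.pi - 5 * Real.pi / 17) := by
    push_cast; ring
  rw [e1, e2, Real.cos_add_pi, Real.cos_neg, Real.cos_pi_sub]
  have h1 : Real.cos (7 * Real.pi / 17) ≤ Real.cos (5 * Real.pi / 17) :=
    Real.cos_le_cos_of_nonneg_of_le_pi (by positivity) (by linarith) (by linarith)
  linarith

theorem uc4 : -1 ≤ uc 4 := by
  have hpi := Real.pi_pos
  unfold uc
  have e1 : 2 * Real.pi * ((4 : ℕ) : ℝ) * 6 / 17 = (Real.pi - 3 * Real.pi / 17) + 2 * Real.pi := by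
    push_cast; ring
  have e2 : 2 * Real.pi * ((4 : ℕ) : ℝ) * (-3) / 17 = -(7 * Real.pi / 17 + Real.pi) := by
    push_cast; ring
  rw [e1, e2, Real.cos_add_two_pi, Real.cos_pi_sub, Real.cos_neg, Real.cos_add_pi]
  have h1 := Real.cos_le_one (3 * Real.pi / 17)
  have h2 : 0 ≤ Real.cos (7 * Real.pi / 17) :=
    Real.cos_nonneg_of_neg_pi_div_two_le_of_le (by linarith) (by linarith)
  linarith

theorem uc5 : -1 ≤ uc 5 := by
  have hpi := Real.pi_pos
  unfold uc
  have e1 : 2 * Real.pi * ((5 : ℕ) : ℝ) * 6 / 17 = -(8 * Real.pi / 17) + 2 * Real.pi +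
      2 * Real.pi := by
    push_cast; ring
  rw [e1, Real.cos_add_two_pi, Real.cos_add_two_pi, Real.cos_neg]
  have h1 := Real.cos_le_one (2 * Real.pi * ((5 : ℕ) : ℝ) * (-3) / 17)
  have h2 : 0 ≤ Real.cos (8 * Real.pi / 17) :=
    Real.cos_nonneg_of_neg_pi_div_two_le_of_le (by linarith) (by linarith)
  linarith

theorem uc7 : uc 7 ≤ 0 := by
  have hpi := Real.pi_pos
  unfold uc
  have e1 : 2 * Real.pi * ((7 : ℕ) : ℝ) * 6 / 17 = (Real.pi - Real.pi / 17) + 2 * Real.pi +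
      2 * Real.pi := by
    push_cast; ring
  have e2 : 2 * Real.pi * ((7 : ℕ) : ℝ) * (-3) / 17 = -(8 * Real.pi / 17 + 2 * Real.pi) := by
    push_cast; ring
  rw [e1, e2, Real.cos_add_two_pi, Real.cos_add_two_pi, Real.cos_pi_sub, Real.cos_neg,
    Real.cos_add_two_pi]
  have h1 : 0 ≤ Real.cos (Real.pi / 17) :=
    Real.cos_nonneg_of_neg_pi_div_two_le_of_le (by linarith) (by linarith)
  have h2 : 0 ≤ Real.cos (8 * Real.pi / 17) :=
    Real.cos_nonneg_of_neg_pi_div_two_le_of_le (by linarith) (by linarith)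
  linarith

theorem uc8 : uc 8 ≤ 1.5 := by
  have hpi := Real.pi_pos
  unfold uc
  have e1 : 2 * Real.pi * ((8 : ℕ) : ℝ) * 6 / 17 = -(6 * Real.pi / 17) + 2 * Real.pi +
      2 * Real.pi + 2 * Real.pi := by
    push_cast; ring
  have e2 : 2 * Real.pi * ((8 : ℕ) : ℝ) * (-3) / 17 = -(Real.pi - 3 * Real.pi / 17 +
      2 * Real.pi) := by
    push_cast; ring
  rw [e1, e2, Real.cos_add_two_pi, Real.cos_add_two_pi, Real.cos_add_two_pi, Real.cos_neg,
    Real.cos_neg, Real.cos_add_two_pi, Real.cos_pi_sub]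
  have h1 : Real.cos (6 * Real.pi / 17) ≤ Real.cos (Real.pi / 3) :=
    Real.cos_le_cos_of_nonneg_of_le_pi (by positivity) (by linarith) (by linarith)
  have h2 := Real.cos_le_one (3 * Real.pi / 17)
  rw [Real.cos_pi_div_three] at h1
  norm_num
  linarith

/-- the period between `0` and `1 / 3`: the real part is negative -/
theorem re_neg_aux : (F f17 ((((6 : ℝ) : ℂ) + Complex.I) / 17)).re -
    (F f17 ((((-3 : ℝ) : ℂ) + Complex.I) / 17)).re < 0 := by
  have hr0 := rr_pos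
  have hrl := rr_le
  have hr1 : rr17 < 1 := lt_of_le_of_lt rr_le (by norm_num)
  have h1 := (F_re 6).sub (F_re (-3))
  set S := (F f17 ((((6 : ℝ) : ℂ) + Complex.I) / 17)).re -
    (F f17 ((((-3 : ℝ) : ℂ) + Complex.I) / 17)).re with hS
  have h2 : HasSum (fun n : ℕ => (cf f17 n).re / n * (rr17 ^ n * uc n)) S := by
    refine h1.congr_fun ?_ |> fun h => h
    intro n
    unfold uc
    ring
  set T : ℕ → ℝ := fun n => (cf f17 n).re / n * (rr17 ^ n * uc n) with hT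
  have h3 := h2.summable.sum_add_tsum_nat_add 9
  rw [h2.tsum_eq] at h3
  obtain ⟨c1, c2, c3, c4, c5, c6⟩ := coefs
  obtain ⟨c7, c8⟩ := coefs2
  have hfin : ∑ i ∈ Finset.range 9, T i ≤
      rr17 * (-1.009 + rr17 ^ 3 / 4 + 2 * rr17 ^ 4 / 5 + 3 * rr17 ^ 7 / 8 * 1.5) := by
    simp only [Finset.sum_range_succ, Finset.sum_range_zero, hT, c1, c2, c3, c4, c5, c6, c7, c8]
    have p1 : rr17 * uc 1 ≤ rr17 * (-1.009) := mul_le_mul_of_nonneg_left uc1 hr0.le
    have p2 : 0 ≤ rr17 ^ 2 * uc 2 := mul_nonneg (by positivity) uc2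
    have p4 : rr17 ^ 4 * (-1) ≤ rr17 ^ 4 * uc 4 := mul_le_mul_of_nonneg_left uc4 (by positivity)
    have p5 : rr17 ^ 5 * (-1) ≤ rr17 ^ 5 * uc 5 := mul_le_mul_of_nonneg_left uc5 (by positivity)
    have p7 : 0 ≤ rr17 ^ 7 * (-uc 7) := mul_nonneg (by positivity) (by linarith [uc7])
    have p8 : rr17 ^ 8 * uc 8 ≤ rr17 ^ 8 * 1.5 := mul_le_mul_of_nonneg_left uc8 (by positivity)
    push_cast
    have e : rr17 * (-1.009 + rr17 ^ 3 / 4 + 2 * rr17 ^ 4 / 5 + 3 * rr17 ^ 7 / 8 * 1.5) =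
      rr17 * (-1.009) + rr17 ^ 4 / 4 + 2 * rr17 ^ 5 / 5 + 3 / 8 * (rr17 ^ 8 * 1.5) := by ring
    rw [e]
    norm_num at p1 p8 ⊢
    linarith
  have htail : |∑' i : ℕ, T (i + 9)| ≤ 4 * rr17 ^ 9 / (1 - rr17) := by
    have hg : HasSum (fun i : ℕ => 4 * rr17 ^ 9 * rr17 ^ i) (4 * rr17 ^ 9 * (1 - rr17)⁻¹) :=
      (hasSum_geometric_of_lt_one hr0.le hr1).mul_left _
    rw [div_eq_mul_inv, ← Real.norm_eq_abs]
    refine tsum_of_norm_bounded hg fun i => ?_
    rw [Real.norm_eq_abs]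
    simp only [hT]
    rw [abs_mul, abs_mul, abs_div, Nat.abs_cast, abs_of_pos (pow_pos hr0 (i + 9))]
    have hn0 : (0 : ℝ) < ((i + 9 : ℕ) : ℝ) := by positivity
    have k1 : |(cf f17 (i + 9)).re| / ((i + 9 : ℕ) : ℝ) ≤ 2 := by
      rw [div_le_iff₀ hn0]
      exact cf_le eigen17 (i + 9) (by omega)
    have k2 := uc_le (i + 9)
    have k3 : 0 ≤ rr17 ^ (i + 9) := by positivity
    calc |(cf f17 (i + 9)).re| / ((i + 9 : ℕ) : ℝ) * (rr17 ^ (i + 9) * |uc (i + 9)|)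
        ≤ 2 * (rr17 ^ (i + 9) * 2) := by gcongr
      _ = 4 * rr17 ^ 9 * rr17 ^ i := by rw [pow_add]; ring
  have h3' : rr17 ^ 3 ≤ 0.6956 ^ 3 := pow_le_pow_left₀ hr0.le hrl 3
  have h4' : rr17 ^ 4 ≤ 0.6956 ^ 4 := pow_le_pow_left₀ hr0.le hrl 4
  have h7' : rr17 ^ 7 ≤ 0.6956 ^ 7 := pow_le_pow_left₀ hr0.le hrl 7
  have h8' : rr17 ^ 8 ≤ 0.6956 ^ 8 := pow_le_pow_left₀ hr0.le hrl 8
  have h4 : 4 * rr17 ^ 9 / (1 - rr17) < rr17 * 0.7251 := by
    rw [div_lt_iff₀ (by linarith)]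
    have h6 : 4 * rr17 ^ 8 < 0.7251 * (1 - rr17) := by
      norm_num at h8' hrl ⊢
      linarith
    have h7 : rr17 * (4 * rr17 ^ 8) < rr17 * (0.7251 * (1 - rr17)) :=
      mul_lt_mul_of_pos_left h6 hr0
    calc 4 * rr17 ^ 9 = rr17 * (4 * rr17 ^ 8) := by ring
      _ < rr17 * (0.7251 * (1 - rr17)) := h7
      _ = _ := by ring
  have h6 : rr17 * (-1.009 + rr17 ^ 3 / 4 + 2 * rr17 ^ 4 / 5 + 3 * rr17 ^ 7 / 8 * 1.5) ≤
      rr17 * (-0.7251) := by
    refine mul_le_mul_of_nonneg_left ?_ hr0.le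
    norm_num at h3' h4' h7' ⊢
    linarith
  have h5 := (abs_le.1 htail).2
  linarith

/-- the difference of the values at `1 / 3` and at `0` is negative -/
theorem re_third_neg : (II f17 (1 / 3)).re - (II f17 0).re < 0 := by
  have hdet : (6 : ℤ) * 3 - 1 * (((17 : ℕ) : ℤ) * 1) = 1 := by norm_num
  obtain ⟨p, hp⟩ := F_gamma f17 hdet
  have h1 := II_gamma f17 hdet hp 0 (by norm_num)
  have h2 : (II f17 (1 / 3)).re - (II f17 0).re = p.re := by
    have h3 := congrArg Complex.re h1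
    rw [Complex.add_re] at h3
    have h4 : II f17 (1 / 3) = II f17 ((((6 : ℤ) : ℚ) * 0 + ((1 : ℤ) : ℚ)) /
      (((17 : ℕ) : ℚ) * ((1 : ℤ) : ℚ) * 0 + ((3 : ℤ) : ℚ))) := by
      congr 1
      norm_num
    rw [h4, h3]
    ring
  rw [h2]
  have hz : 0 < ((((-3 : ℝ) : ℂ) + Complex.I) / 17).im := by
    have : ((((-3 : ℝ) : ℂ) + Complex.I) / 17).im = 1 / 17 := by
      rw [Complex.div_im]
      simp [Complex.normSq]
    rw [this]; norm_num
  have h4 := hp _ hz
  have h5 : (((6 : ℤ) : ℂ) * ((((-3 : ℝ) : ℂ) + Complex.I) / 17) + ((1 : ℤ) : ℂ)) /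
      (((17 : ℕ) : ℂ) * ((1 : ℤ) : ℂ) * ((((-3 : ℝ) : ℂ) + Complex.I) / 17) + ((3 : ℤ) : ℂ)) =
      ((((6 : ℝ) : ℂ) + Complex.I) / 17) := by
    have e : (((17 : ℕ) : ℂ) * ((1 : ℤ) : ℂ) * ((((-3 : ℝ) : ℂ) + Complex.I) / 17) + ((3 : ℤ) : ℂ)) =
        Complex.I := by
      push_cast
      ring
    rw [e, div_eq_iff Complex.I_ne_zero]
    push_cast
    linear_combination (-1 / 17 : ℂ) * Complex.I_sq
  rw [h5] at h4
  have h6 := re_neg_aux
  rw [h4, Complex.add_re] at h6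
  linarith

end Pool.Agent.N971.EX
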