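import Pool.Agent.N974.Gen.Lat
import Pool.Agent.W97.TW.Eleven
import Pool.Agent.W349.MT.TORS

/-!
# The lattice of the periods is the whole lattice

If `X` is a Weierstrass coordinate on `X_0(N)` which is finite at the cusps which are not equivalent
to infinity, then the periods of the form on `Γ_0(N)` generate the lattice.
-/

set_option autoImplicit false
set_option linter.unusedSectionVars false

open UpperHalfPlane MatrixGroups CongruenceSubgroup Filter Topology MeasureTheory Set
open scoped ModularForm Pointwise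

namespace Pool.Agent.N971.EX

open Pool.Agent.W97.TW
open Pool.Agent.W97.MT (qq qq_ne norm_qq norm_qq_lt z_ne H_open QV iI iI_pos iI_gt iI_eventually
  tendsto_qq tpi_ne hasDerivAt_qq const_of_deriv line_im line_re tendsto_im exists_qq)
open Pool.Agent.N974.MF (Hor line_hor hor_neBot hor_gt hor_pos ne_of_im mob_hor mob_inf_hor
  mob_hor_inf im_inv iI_neBot den_ne)
open Pool.Agent.N974.Gen

/-- the constant principle for `Γ_0(N)` -/
theorem cpG (N : ℕ) [NeZero N] {g : ℂ → ℂ}
    (hd : DifferentiableOn ℂ g {z : ℂ | 0 < z.im})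
    (hinv : ∀ a b c d : ℤ, a * d - b * (N * c) = 1 → ∀ z : ℂ, 0 < z.im →
      g ((a * z + b) / (N * c * z + d)) = g z)
    (hb : ∀ a b c d : ℤ, a * d - b * c = 1 → ∃ B T : ℝ, ∀ z : ℂ, 0 < z.im → T < z.im →
      ‖g ((a * z + b) / (c * z + d))‖ ≤ B) :
    ∃ c : ℂ, ∀ z : ℂ, 0 < z.im → g z = c := by
  let F : ModularForm (Gamma0 N : Subgroup (GL (Fin 2) ℝ)) 0 :=
    { toFun := fun z => g z
      slash_action_eq' := by
        rintro _ ⟨γ, hγ, rfl⟩
        change (fun z : ℍ => g z) ∣[(0 : ℤ)] γ = _
        obtain ⟨a, b, c, d, h, rfl⟩ := exists_mkSL γ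
        have hγ' := (mkSL_mem a b c d h N).1 hγ
        clear hγ
        obtain ⟨c, rfl⟩ := hγ'
        funext z
        rw [ModularForm.SL_slash_apply, neg_zero, zpow_zero, mul_one, mkSL_smul]
        have h5 := hinv a b c d h z z.im_pos
        push_cast
        exact h5
      holo' := by
        rw [UpperHalfPlane.mdifferentiable_iff]
        refine hd.congr fun z hz => ?_
        rw [Function.comp_apply, ofComplex_apply_of_im_pos hz]
        rfl
      bdd_at_cusps' := by
        intro c hc
        rw [Subgroup.IsArithmetic.isCusp_iff_isCusp_SL2Z] at hc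
        rw [OnePoint.isBoundedAt_iff_forall_SL2Z hc]
        intro γ _
        obtain ⟨a, b, c, d, h, rfl⟩ := exists_mkSL γ
        obtain ⟨B, T, hB⟩ := hb a b c d h
        rw [isBoundedAtImInfty_iff]
        refine ⟨B, T + 1, fun z hz => ?_⟩
        rw [ModularForm.SL_slash_apply, neg_zero, zpow_zero, mul_one, mkSL_smul]
        have hz' : z.im = (z : ℂ).im := rfl
        exact hB z z.im_pos (by linarith) }
  obtain ⟨c, hc⟩ := ModularForm.eq_const_of_weight_zero F
  refine ⟨c, fun z hz => ?_⟩
  have h1 := congrFun hc ⟨z, hz⟩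
  exact h1

variable {N : ℕ} [NeZero N] {f : CuspForm (Gamma0 N : Subgroup (GL (Fin 2) ℝ)) 2}

/-- the limit of the primitive at all cusps -/
lemma F_cusp {a b c d : ℤ} (h : a * d - b * c = 1) :
    ∃ C : ℂ, (C = 0 ∨ ∃ r : ℚ, (c : ℚ) * r = a ∧ c ≠ 0 ∧ C = II f r) ∧
      Tendsto (fun z : ℂ => F f ((a * z + b) / (c * z + d))) iI (𝓝 C) := by
  by_cases hc : c = 0
  · refine ⟨0, Or.inl rfl, ?_⟩
    subst hc
    have had : a * d = 1 := by linarith
    have hd : d = a := by
      rcases Int.isUnit_iff.1 (IsUnit.of_mul_eq_one d had) with h1 | h1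
      · rw [h1] at had; linarith
      · rw [h1] at had; linarith
    have h1 : Tendsto (fun z : ℂ => (a * z + b) / (((0 : ℤ) : ℂ) * z + d)) iI iI := by
      unfold iI
      rw [tendsto_comap_iff]
      refine tendsto_comap.congr fun z => ?_
      simp only [Function.comp_apply]
      have ha : a = 1 ∨ a = -1 := Int.isUnit_iff.1 (IsUnit.of_mul_eq_one d had)
      rcases ha with ha | ha
      · rw [hd, ha]; simp
      · rw [hd, ha]
        have e : ((((-1 : ℤ) : ℂ) * z + b) / (((0 : ℤ) : ℂ) * z + ((-1 : ℤ) : ℂ))) = z - b := by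
          push_cast
          ring
        rw [e]
        simp
    exact (F_QV f).tendsto.comp h1
  · have hcq : (c : ℚ) ≠ 0 := by exact_mod_cast hc
    refine ⟨II f ((a : ℚ) / c), Or.inr ⟨(a : ℚ) / c, by field_simp, hc, rfl⟩, ?_⟩
    have hdet : (0 : ℝ) < (a : ℝ) * d - b * c := by
      have : (a : ℝ) * d - b * c = 1 := by exact_mod_cast h
      rw [this]; norm_num
    have h1 := mob_inf_hor (A := a) (B := b) (C := c) (D := d) hdet (by exact_mod_cast hc)
    have h2 := F_hor f ((a : ℚ) / c)
    have e : (((a : ℚ) / c : ℚ) : ℂ) = (((a : ℝ) / c : ℝ) : ℂ) := by push_cast; rfl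
    rw [e] at h2
    refine (h2.comp h1).congr fun z => ?_
    simp only [Function.comp_apply]
    push_cast
    rfl

/-- **The periods generate the lattice.** -/
theorem scale {L : PeriodPair} {X : ℂ → ℂ} (h : Param f L X)
    (hcusp : ∀ r : ℚ, ¬ (N : ℤ) ∣ r.den → II f r ∉ L.lattice)
    (L' : PeriodPair) (hsub : ∀ w ∈ L'.lattice, w ∈ L.lattice)
    (hper : ∀ (a b c d : ℤ), a * d - b * ((N : ℤ) * c) = 1 → ∀ p : ℂ,
      (∀ z : ℂ, 0 < z.im → F f ((a * z + b) / ((N : ℂ) * c * z + d)) = F f z + p) →
      p ∈ L'.lattice) : ∀ w ∈ L.lattice, w ∈ L'.lattice := by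
  intro lam hlam
  by_contra hlam'
  have hw := wp_F h
  have hF : ∀ z : ℂ, 0 < z.im → F f z - lam ∉ L'.lattice := by
    intro z hz hm
    apply (hw z hz).1
    have := add_mem (hsub _ hm) hlam
    rwa [sub_add_cancel] at this
  set g : ℂ → ℂ := fun z => L'.weierstrassP (F f z - lam) with hg
  have hgd : ∀ z : ℂ, 0 < z.im → HasDerivAt g
      (L'.derivWeierstrassP (F f z - lam) * (2 * Real.pi * Complex.I * ff f z)) z := by
    intro z hz
    have h1 : HasDerivAt L'.weierstrassP (L'.derivWeierstrassP (F f z - lam)) (F f z - lam) := by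
      have h2 := (L'.analyticOnNhd_weierstrassP (F f z - lam) (hF z hz)).differentiableAt.hasDerivAt
      have h3 : deriv L'.weierstrassP (F f z - lam) = L'.derivWeierstrassP (F f z - lam) := by
        rw [L'.deriv_weierstrassP]
      rwa [h3] at h2
    exact h1.comp z ((F_deriv f hz).sub_const lam)
  obtain ⟨c0, hc0⟩ := cpG N (g := g)
    (fun z hz => (hgd z hz).differentiableAt.differentiableWithinAt)
    (fun a b c d hdet z hz => by
      obtain ⟨p, hp⟩ := F_gamma f hdet
      have hpm := hper a b c d hdet p hp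
      rw [hg]
      simp only
      rw [hp z hz]
      have h1 := L'.weierstrassP_add_coe (F f z - lam) ⟨p, hpm⟩
      rw [← h1]
      congr 1
      simp only
      ring)
    (fun a b c d hdet => by
      obtain ⟨C, hC, hlim⟩ := F_cusp (f := f) hdet
      have hCl : C - lam ∉ L'.lattice := by
        rcases hC with rfl | ⟨r, hr, hc, rfl⟩
        · rw [zero_sub]
          intro hm
          apply hlam'
          have := neg_mem hm
          rwa [neg_neg] at this
        · by_cases hN : (N : ℤ) ∣ r.den
          · -- equivalent to infinity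
            obtain ⟨a', b', c', d', hdet', hc', -, hden, hnum⟩ := rat_bez r
            obtain ⟨c'', hc''⟩ := hN
            have hc''0 : c'' ≠ 0 := by
              rintro rfl
              rw [mul_zero] at hc''
              exact hc' (by rw [hden, hc''])
            have hd' : a' * d' - b' * ((N : ℤ) * c'') = 1 := by
              rw [← hc'', ← hden]
              exact hdet'
            obtain ⟨p, hp⟩ := F_gamma f hd'
            have h1 := II_gamma_inf f hd' hp hc''0
            have e : (a' : ℚ) / ((N : ℚ) * c'') = r := by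
              have h2 : ((N : ℚ) * c'') = r.den := by exact_mod_cast hc''.symm
              rw [h2, hnum]
              exact Rat.num_div_den r
            rw [e] at h1
            have hpm := hper _ _ _ _ hd' p hp
            intro hm
            apply hlam'
            rw [h1] at hm
            have := sub_mem hpm hm
            rwa [sub_sub_cancel] at this
          · intro hm
            apply hcusp r hN
            have := add_mem (hsub _ hm) hlam
            rwa [sub_add_cancel] at this
      have h1 : Tendsto (fun z : ℂ => g ((a * z + b) / (c * z + d))) iI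
          (𝓝 (L'.weierstrassP (C - lam))) :=
        (L'.analyticOnNhd_weierstrassP (C - lam) hCl).continuousAt.tendsto.comp
          (hlim.sub_const lam)
      have h2 : ∀ᶠ z in iI, ‖g ((a * z + b) / (c * z + d))‖ ≤ ‖L'.weierstrassP (C - lam)‖ + 1 := by
        have h3 := (continuous_norm.tendsto _).comp h1
        exact (h3.eventually (eventually_lt_nhds (lt_add_one _))).mono fun z hz => hz.le
      obtain ⟨T, hT, h4⟩ := iI_eventually.1 h2
      exact ⟨_, T, fun z _ hz => h4 z hz⟩)
  -- the derivative vanishes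
  have hder : ∀ z : ℂ, 0 < z.im → L'.derivWeierstrassP (F f z - lam) *
      (2 * Real.pi * Complex.I * ff f z) = 0 := by
    intro z hz
    have h1 : HasDerivAt g 0 z := by
      refine (hasDerivAt_const z c0).congr_of_eventuallyEq ?_
      filter_upwards [H_open.mem_nhds hz] with w hw
      exact hc0 w hw
    exact (hgd z hz).unique h1
  have hphi : ∀ᶠ z in iI, phi f (qq z) ≠ 0 := by
    have h1 : ContinuousAt (phi f) 0 :=
      ((phi_diff f).differentiableAt (Metric.ball_mem_nhds _ one_pos)).continuousAt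
    have h2 := h1.tendsto.comp tendsto_qq
    rw [phi_zero, h.one] at h2
    exact h2.eventually (isOpen_ne.mem_nhds one_ne_zero)
  have h2F : ∀ᶠ z in iI, 2 * (F f z - lam) ∈ L'.lattice := by
    filter_upwards [hphi, iI_pos] with z hz hp
    by_contra h6
    have h7 := Wg.wpd_ne L' (F f z - lam) h6
    have h8 : ff f z ≠ 0 := by
      rw [ff_q f hp]
      exact mul_ne_zero (qq_ne z) hz
    rcases mul_eq_zero.1 (hder z hp) with h9 | h9
    · exact h7 h9
    · exact mul_ne_zero tpi_ne h8 h9
  have hlim : Tendsto (fun z => 2 * (F f z - lam)) iI (𝓝 (2 * (0 - lam))) :=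
    ((F_QV f).tendsto.sub_const lam).const_mul 2
  have := iI_neBot
  have hmem := L'.isClosed_lattice.mem_of_tendsto hlim h2F
  have hev : ∀ᶠ z in iI, 2 * (F f z - lam) = 2 * (0 - lam) := by
    have h3 : ((L'.lattice : Set ℂ) \ {2 * (0 - lam)})ᶜ ∈ 𝓝 (2 * (0 - lam)) :=
      L'.isOpen_compl_lattice_sdiff.mem_nhds (by simp)
    filter_upwards [h2F, hlim h3] with z h4 h5
    by_contra h6
    exact h5 ⟨h4, h6⟩
  obtain ⟨z, h4, h5⟩ := (hev.and iI_pos).exists
  apply (hw z h5).1
  have h6 : F f z = 0 := by linear_combination (1 / 2 : ℂ) * h4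
  rw [h6]
  exact zero_mem _

/-- a lattice with a real and a second generator -/
noncomputable def mkL (Op : ℝ) (v : ℂ) (hOp : Op ≠ 0) (hv : v.im ≠ 0) : PeriodPair where
  ω₁ := Op
  ω₂ := v
  indep := by
    rw [LinearIndependent.pair_iff]
    intro a b h
    have h1 := congrArg Complex.im h
    have h2 := congrArg Complex.re h
    simp at h1 h2
    have hb : b = 0 := by
      rcases h1 with h1 | h1
      · exact h1
      · exact absurd h1 hv
    rw [hb, zero_mul, add_zero] at h2
    rcases mul_eq_zero.1 h2 with h3 | h3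
    · exact ⟨h3, hb⟩
    · exact absurd h3 hOp

/-- **The imaginary parts of the periods have no common factor.** -/
theorem scale_im {L : PeriodPair} {X : ℂ → ℂ} (h : Param f L X)
    (hcusp : ∀ r : ℚ, ¬ (N : ℤ) ∣ r.den → II f r ∉ L.lattice)
    {Op : ℝ} {v : ℂ} (hOp : Op ≠ 0) (hv : v.im ≠ 0)
    (hL : ∀ w : ℂ, w ∈ L.lattice ↔ ∃ a b : ℤ, w = a * Op + b * v) (k : ℤ)
    (hk : ∀ (a b c d : ℤ), a * d - b * ((N : ℤ) * c) = 1 → ∀ p : ℂ,
      (∀ z : ℂ, 0 < z.im → F f ((a * z + b) / ((N : ℂ) * c * z + d)) = F f z + p) →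
      ∃ m : ℤ, p.im = m * (k * v.im)) : k = 1 ∨ k = -1 := by
  obtain ⟨k', hk', hkk⟩ : ∃ k' : ℤ, k' ≠ 0 ∧ ((k = 0 ∧ k' = 2) ∨ k' = k) := by
    by_cases h0 : k = 0
    · exact ⟨2, by norm_num, Or.inl ⟨h0, rfl⟩⟩
    · exact ⟨k, h0, Or.inr rfl⟩
  have hv' : ((k' : ℂ) * v).im ≠ 0 := by
    have : ((k' : ℂ) * v).im = k' * v.im := by simp
    rw [this]
    exact mul_ne_zero (by exact_mod_cast hk') hv
  have hm : ∀ w : ℂ, w ∈ (mkL Op ((k' : ℂ) * v) hOp hv').lattice ↔
      ∃ a b : ℤ, w = a * Op + b * (k' * v) := by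
    intro w
    rw [PeriodPair.mem_lattice]
    constructor
    · rintro ⟨a, b, rfl⟩
      exact ⟨a, b, rfl⟩
    · rintro ⟨a, b, rfl⟩
      exact ⟨a, b, rfl⟩
  have key := scale h hcusp (mkL Op ((k' : ℂ) * v) hOp hv') (fun w hw => by
      obtain ⟨a, b, rfl⟩ := (hm w).1 hw
      exact (hL _).2 ⟨a, b * k', by push_cast; ring⟩) (fun a b c d hdet p hp => by
      have hpL := period_mem h hdet hp
      obtain ⟨x, y, hxy⟩ := (hL p).1 hpL
      obtain ⟨m, hm1⟩ := hk a b c d hdet p hp
      have him : p.im = y * v.im := by rw [hxy]; simp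
      rw [him] at hm1
      have h2 : (y : ℝ) = m * k := by
        have h3 : (y : ℝ) * v.im = (m * k) * v.im := by rw [hm1]; ring
        exact mul_right_cancel₀ hv h3
      have h3 : y = m * k := by exact_mod_cast h2
      refine (hm p).2 ?_
      rcases hkk with ⟨h0, -⟩ | h0
      · refine ⟨x, 0, ?_⟩
        rw [hxy, h3, h0]
        push_cast
        ring
      · refine ⟨x, m, ?_⟩
        rw [hxy, h3, h0]
        push_cast
        ring) v ((hL v).2 ⟨0, 1, by push_cast; ring⟩)
  obtain ⟨a, b, hab⟩ := (hm v).1 key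
  have him := congrArg Complex.im hab
  have h1 : v.im = b * (k' * v.im) := by simpa using him
  have h2 : (1 : ℝ) = b * k' := by
    have h3 : (1 : ℝ) * v.im = (b * k') * v.im := by rw [one_mul]; linarith
    exact mul_right_cancel₀ hv h3
  have h3 : (1 : ℤ) = b * k' := by exact_mod_cast h2
  have h4 := Int.isUnit_iff.1 (IsUnit.of_mul_eq_one b (by rw [mul_comm]; exact h3.symm : k' * b = 1))
  rcases hkk with ⟨-, h0⟩ | h0
  · rw [h0] at h4
    omega
  · rw [← h0]
    exact h4

end Pool.Agent.N971.EX
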