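import Pool.Agent.N971.EX.Val17
import Pool.Agent.N971.EX.SgnP
import Pool.Agent.N974.PG.Scale
import Pool.Agent.N974.PG.SymE

/-!
# The exact central values of the twists of `17a2` by positive discriminants
-/

set_option autoImplicit false
set_option linter.style.haveILetI false

open Complex Filter Topology Set UpperHalfPlane MatrixGroups CongruenceSubgroup ZMod

namespace Pool.Agent.N971.EX

open Pool.Agent.N974.Gen
open Pool.Agent.N809.M17 (f17 X0 eigen17 param17 tors0)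
open Pool.Agent.N972.P17 (Cp Cm Cme cc)
open Pool.Agent.N969.P17G (CpE Gg GgE chP Pr PrE P11 P11E)
open Pool.Agent.W97.MT (ap)
open Pool.Agent.Y700 (IsL Omega)
open Pool.Agent.N969.P15 (un)

/-- the lattice of `17a2` and the scale of the even symbol -/
theorem scale17P : ∃ (Λ : PeriodPair) (Op Om : ℝ), 0 < Op ∧ 0 < Om ∧
    Λ.g₂ = ((273 : ℤ) : ℂ) / 12 ∧ Λ.g₃ = ((4455 : ℤ) : ℂ) / 216 ∧
    (∀ w : ℂ, w ∈ Λ.lattice ↔ ∃ a b : ℤ, w = a * Op + b * Om * Complex.I) ∧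
    (II f17 (1 / 3)).re - (II f17 0).re = -(Op / 2) := by
  obtain ⟨L, Λ, Op, Om, hOp, hOm, g2, g3, hL, k2, k3, hΛ⟩ := lat17b
  refine ⟨Λ, 2 * Op, 2 * Om, by positivity, by positivity, ?_, ?_, ?_, ?_⟩
  · rw [k2]; push_cast; norm_num
  · rw [k3]; push_cast; norm_num
  · intro w
    rw [hΛ]
  · have h1 := re_third_neg
    rcases Pool.Agent.N974.PG.scale_even g2 g3 hOp.ne' hOm.ne' hL with h | h
    · rw [h] at h1
      linarith
    · rw [h]; ring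

/-- **The central value in terms of the symbol, positive discriminants.** -/
theorem value17P {n : ℕ} [NeZero n] (hn1 : 1 < n) (W : WeierstrassCurve ℤ)
    (h4 : W.c₄ = 273 * (n : ℤ) ^ 2) (h6 : W.c₆ = 4455 * (n : ℤ) ^ 3)
    (χ : DirichletCharacter ℂ n) (hχ : χ.IsPrimitive) (hinv : χ⁻¹ = χ) (heven : χ (-1) = 1)
    (hG : gaussSum χ (stdAddChar (N := n)) = ((Real.sqrt n : ℝ) : ℂ))
    (w : ℕ → ℤ) (hw : ∀ u : ℕ, χ (u : ZMod n) = (w u : ℂ))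
    (hv : ∀ p : ℕ, p.Prime → w p = 0 ∨ w p = 1 ∨ w p = -1)
    (ha : ∀ p : ℕ, p.Prime → ap W p = ap E17 p * w p)
    (hΔ : ∀ p : ℕ, p.Prime → ((p : ℤ) ∣ W.Δ ↔ p ∣ 17 ∨ w p = 0)) (K : ℤ)
    (hK : ∑ u ∈ un n, (w u : ℝ) * (II f17 ((u : ℚ) / n)).re =
      ((II f17 (1 / 3)).re - (II f17 0).re) * (K : ℝ)) :
    0 < Omega W ∧ ∃ f : ℂ → ℂ, IsL W f ∧ 4 * f 1 = ((-K : ℤ) : ℂ) * ((Omega W : ℝ) : ℂ) := by
  obtain ⟨Λ, Op, Om, hOp, hOm, g2, g3, hL, hk⟩ := scale17P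
  have hn0 : (0 : ℝ) < n := by exact_mod_cast (by omega : 0 < n)
  have hsn : (0 : ℝ) < √(n : ℝ) := Real.sqrt_pos.2 hn0
  have hΩ := omega_pos Λ Op Om hOp hOm g2 g3 hL n (by omega) W h4 h6
  obtain ⟨f, hf, hf1⟩ := value_even eigen17 W hn1 χ hχ hinv heven hG w hw hv ha hΔ
  refine ⟨by rw [hΩ]; positivity, f, hf, ?_⟩
  rw [hf1, hK, hk, hΩ]
  push_cast
  have hsc : ((√(n : ℝ) : ℝ) : ℂ) ≠ 0 := by exact_mod_cast hsn.ne'
  field_simp
  ring

/-- **odd positive discriminants** -/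
theorem val_Cp {n : ℕ} (hn : Cp n) (h1 : 1 < n) (W : WeierstrassCurve ℤ)
    (hc4 : W.c₄ = 273 * (n : ℤ) ^ 2) (hc6 : W.c₆ = 4455 * (n : ℤ) ^ 3)
    (ha : ∀ p : ℕ, p.Prime → ap W p = ap E17 p * jacobiSym p n)
    (hΔ : ∀ p : ℕ, p.Prime → ((p : ℤ) ∣ W.Δ ↔ p ∣ 17 ∨ p ∣ n)) :
    0 < Omega W ∧ ∃ f : ℂ → ℂ, IsL W f ∧
      4 * f 1 = ((-Gg n 1 1 3 : ℤ) : ℂ) * ((Omega W : ℝ) : ℂ) := by
  have hs := hn.1
  have h4 := hn.2.1
  have hodd : Odd n := Nat.odd_iff.2 (by omega)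
  haveI : NeZero n := ⟨by omega⟩
  set d : Pool.Agent.H491R3.J.OS := ⟨n, hodd, hs, by omega⟩ with hd
  have hchi : ∀ m : ℕ, H491R3.J.chi d (m : ZMod n) = ((jacobiSym (m : ℤ) n : ℤ) : ℂ) :=
    H491R3.J.chi_natCast d
  have jz : ∀ p : ℕ, p.Prime → (jacobiSym (p : ℤ) n = 0 ↔ p ∣ n) := by
    intro p hp
    rw [jacobiSym.eq_zero_iff_not_coprime, Int.gcd_natCast_natCast]
    have h9 : Nat.gcd p n = 1 ↔ ¬ p ∣ n := Nat.Prime.coprime_iff_not_dvd hp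
    rw [ne_eq, h9, not_not]
  refine value17P (by omega) W hc4 hc6 (H491R3.J.chi d) (H491R3.J.chi_primitive d)
    (H491R3.J.chi_inv d) ?_ ?_ (fun u => jacobiSym u n) hchi ?_ ha ?_ (Gg n 1 1 3)
    (Pool.Agent.N974.PG.sum_re eigen17 hn h1)
  · have h9 := H491R3.J.chi_neg_one d
    have h10 : d.1 % 4 = 1 := h4
    rw [h9, if_pos h10]
  · rw [gauss_odd (H491R3.J.chi d) hchi, gJ_one hs h4]
  · intro p hp
    by_cases hpn : p ∣ n
    · exact Or.inl ((jz p hp).2 hpn)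
    · right
      refine jacobiSym.eq_one_or_neg_one ?_
      rw [Int.gcd_natCast_natCast]
      exact (Nat.Prime.coprime_iff_not_dvd hp).2 hpn
  · intro p hp
    rw [hΔ p hp]
    have := jz p hp
    tauto

open Pool.Agent.N974.Gen.ChP in
/-- **even positive discriminants** -/
theorem val_CpE {n : ℕ} (hn : CpE n) (W : WeierstrassCurve ℤ)
    (hc4 : W.c₄ = 273 * (n : ℤ) ^ 2) (hc6 : W.c₆ = 4455 * (n : ℤ) ^ 3)
    (ha : ∀ p : ℕ, p.Prime → ap W p = ap E17 p * chP n p)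
    (hΔ : ∀ p : ℕ, p.Prime → ((p : ℤ) ∣ W.Δ ↔ p ∣ 17 ∨ p ∣ n)) :
    0 < Omega W ∧ ∃ f : ℂ → ℂ, IsL W f ∧
      4 * f 1 = ((-GgE n 1 1 3 : ℤ) : ℂ) * ((Omega W : ℝ) : ℂ) := by
  have hE := Pool.Agent.N974.PG.ev_of hn
  have hm := ev_mod hE
  have hn0 : 0 < n := by omega
  haveI : NeZero n := ⟨by omega⟩
  have hP : ∀ u : ℤ, chP n u = Pool.Agent.N974.Gen.ChP.chE n u :=
    fun u => Pool.Agent.N974.PG.chP_eq hE u
  have C := Pool.Agent.N974.PG.chrP_E hn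
  have hchi : ∀ m : ℕ, chi n hm (m : ZMod n) = ((chP n (m : ℤ) : ℤ) : ℂ) := by
    intro m
    rw [chi_nat, hP]
  have jz : ∀ p : ℕ, p.Prime → (chP n p = 0 ↔ p ∣ n) := by
    intro p hp
    rw [hP]
    constructor
    · intro h0
      by_contra hcon
      rcases chE_pm hm ((Nat.Prime.coprime_iff_not_dvd hp).2 hcon) with h | h <;>
        rw [h] at h0 <;> norm_num at h0
    · intro h0
      exact chE_zero hm fun h => hp.one_lt.ne' (Nat.eq_one_of_dvd_coprimes h dvd_rfl h0)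
  refine value17P (by omega) W hc4 hc6 (chi n hm) (chi_primitive hE)
    (chi_inv n hm) ?_ ?_ (fun u => chP n u) hchi
    ?_ ha ?_ (GgE n 1 1 3) (Pool.Agent.N974.PG.sum_reE eigen17 hn)
  · have h1 : ((n - 1 : ℕ) : ZMod n) = -1 := by
      rw [Nat.cast_sub (by omega), ZMod.natCast_self, Nat.cast_one, zero_sub]
    have h2 : chP n ((n - 1 : ℕ) : ℤ) = 1 := by
      rw [C.per ((n - 1 : ℕ) : ℤ) (-1) ⟨1, by omega⟩]
      exact C.neg
    rw [← h1, hchi, h2]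
    norm_num
  · obtain ⟨m, rfl, hs, h5⟩ := hE
    exact gauss_chP hs h5.symm (chi (4 * m) hm) hchi
  · intro p hp
    by_cases hpn : p ∣ n
    · exact Or.inl ((jz p hp).2 hpn)
    · right
      show chP n p = 1 ∨ chP n p = -1
      rw [hP]
      exact chE_pm hm ((Nat.Prime.coprime_iff_not_dvd hp).2 hpn)
  · intro p hp
    rw [hΔ p hp]
    have := jz p hp
    tauto

end Pool.Agent.N971.EX
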