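import Pool.Agent.R425.P.Pr
import Pool.Agent.Y700.Defs

/-!
# The real period of the twists of `17a2`
-/

set_option autoImplicit false

namespace Pool.Agent.N971.EX

open Set Filter Topology PeriodPair MeasureTheory
open Pool.Agent.Y702.G (cubic)
open Pool.Agent.Y700 (Omega psi)

/-- the lattice multiplied by `c` -/
noncomputable def sc (c : ℂ) (hc : c ≠ 0) (L : PeriodPair) : PeriodPair where
  ω₁ := c * L.ω₁
  ω₂ := c * L.ω₂
  indep := by
    have h1 : LinearIndependent ℝ ((LinearMap.mulLeft ℝ c) ∘ ![L.ω₁, L.ω₂]) := by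
      refine L.indep.map' _ ?_
      rw [LinearMap.ker_eq_bot]
      intro x y h
      exact mul_left_cancel₀ hc h
    convert h1 using 1
    funext i
    fin_cases i <;> rfl

theorem mem_sc {c : ℂ} (hc : c ≠ 0) (L : PeriodPair) (w : ℂ) :
    w ∈ (sc c hc L).lattice ↔ ∃ l ∈ L.lattice, w = c * l := by
  rw [mem_lattice]
  constructor
  · rintro ⟨m, n, rfl⟩
    refine ⟨m * L.ω₁ + n * L.ω₂, mem_lattice.2 ⟨m, n, rfl⟩, ?_⟩
    simp only [sc]
    ring
  · rintro ⟨l, hl, rfl⟩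
    obtain ⟨m, n, rfl⟩ := mem_lattice.1 hl
    refine ⟨m, n, ?_⟩
    simp only [sc]
    ring

/-- the lattices correspond to each other -/
noncomputable def scE {c : ℂ} (hc : c ≠ 0) (L : PeriodPair) : L.lattice ≃ (sc c hc L).lattice :=
  Equiv.ofBijective (fun l => ⟨c * l, (mem_sc hc L _).2 ⟨l, l.2, rfl⟩⟩) (by
    constructor
    · intro x y h
      have h1 : c * (x : ℂ) = c * (y : ℂ) := congrArg Subtype.val h
      exact Subtype.ext (mul_left_cancel₀ hc h1)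
    · intro w
      obtain ⟨l, hl, h⟩ := (mem_sc hc L _).1 w.2
      exact ⟨⟨l, hl⟩, Subtype.ext h.symm⟩)

theorem G_sc {c : ℂ} (hc : c ≠ 0) (L : PeriodPair) (n : ℕ) :
    (sc c hc L).G n = (c ^ n)⁻¹ * L.G n := by
  rw [PeriodPair.G, PeriodPair.G, ← (scE hc L).tsum_eq, ← tsum_mul_left]
  refine tsum_congr fun l => ?_
  have h1 : ((scE hc L l : (sc c hc L).lattice) : ℂ) = c * l := rfl
  rw [h1, mul_pow, mul_inv]

theorem g2_sc {c : ℂ} (hc : c ≠ 0) (L : PeriodPair) :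
    (sc c hc L).g₂ = (c ^ 4)⁻¹ * L.g₂ := by
  rw [PeriodPair.g₂, PeriodPair.g₂, G_sc]
  ring

theorem g3_sc {c : ℂ} (hc : c ≠ 0) (L : PeriodPair) :
    (sc c hc L).g₃ = (c ^ 6)⁻¹ * L.g₃ := by
  rw [PeriodPair.g₃, PeriodPair.g₃, G_sc]
  ring

theorem omega_eq (W : WeierstrassCurve ℤ) :
    Omega W = 2 * ∫ x in {x : ℝ | 0 < cubic W x}, 1 / √(cubic W x) := by
  unfold Omega
  rw [← MeasureTheory.integral_const_mul]
  show ∫ x in {x : ℝ | 0 < psi W x}, 2 / √(psi W x) = ∫ x in {x : ℝ | 0 < psi W x},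
    2 * (1 / √(psi W x))
  congr 1
  funext x
  rw [mul_one_div]

/-- **The real period of the twists by negative discriminants `-n`** (rectangular lattices). -/
theorem omega_neg (L : PeriodPair) (Op Om : ℝ) (hOp : 0 < Op) (hOm : 0 < Om) {c4 c6 : ℤ}
    (hg2 : L.g₂ = c4 / 12) (hg3 : L.g₃ = c6 / 216)
    (hL : ∀ w : ℂ, w ∈ L.lattice ↔ ∃ a b : ℤ, w = a * Op + b * Om * Complex.I)
    (n : ℕ) (hn : 0 < n) (W : WeierstrassCurve ℤ) (h4 : W.c₄ = c4 * (n : ℤ) ^ 2)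
    (h6 : W.c₆ = -(c6 * (n : ℤ) ^ 3)) : Omega W = 2 * Om / √n := by
  have hn0 : (0 : ℝ) < n := by exact_mod_cast hn
  have hs : (0 : ℝ) < √n := Real.sqrt_pos.2 hn0
  have hs2 : (√(n : ℝ)) ^ 2 = n := Real.sq_sqrt hn0.le
  have hsC : ((√(n : ℝ) : ℝ) : ℂ) ^ 2 = (n : ℂ) := by
    rw [← Complex.ofReal_pow, hs2]
    simp
  have hs0 : ((√(n : ℝ) : ℝ) : ℂ) ≠ 0 := by exact_mod_cast hs.ne'
  have hnC : (n : ℂ) ≠ 0 := by exact_mod_cast hn.ne'
  set c : ℂ := Complex.I / ((√(n : ℝ) : ℝ) : ℂ) with hc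
  have hc0 : c ≠ 0 := div_ne_zero Complex.I_ne_zero hs0
  have c2 : c ^ 2 = -(1 / (n : ℂ)) := by
    rw [hc, div_pow, hsC, Complex.I_sq]
    ring
  have c4' : c ^ 4 = 1 / (n : ℂ) ^ 2 := by
    have : c ^ 4 = (c ^ 2) ^ 2 := by ring
    rw [this, c2]
    ring
  have c6' : c ^ 6 = -(1 / (n : ℂ) ^ 3) := by
    have : c ^ 6 = (c ^ 2) ^ 3 := by ring
    rw [this, c2]
    ring
  have key := Pool.Agent.R425.P.s_perrP W (sc c hc0 L) (Om / √n) (Op / √n) (div_pos hOm hs)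
    (div_pos hOp hs) (by
      rw [g2_sc, hg2, h4, c4']
      push_cast
      field_simp) (by
      rw [g3_sc, hg3, h6, c6']
      push_cast
      field_simp) (by
      intro w
      rw [mem_sc]
      constructor
      · rintro ⟨l, hl, rfl⟩
        obtain ⟨a, b, rfl⟩ := (hL _).1 hl
        refine ⟨-b, a, ?_⟩
        rw [hc]
        push_cast
        field_simp
        linear_combination (b * Om : ℂ) * Complex.I_sq
      · rintro ⟨a, b, rfl⟩
        refine ⟨b * Op + (-a : ℤ) * Om * Complex.I, (hL _).2 ⟨b, -a, rfl⟩, ?_⟩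
        rw [hc]
        push_cast
        field_simp
        linear_combination (a * Om : ℂ) * Complex.I_sq)
  rw [omega_eq, key]
  ring

/-- **The real period of the twists by positive discriminants `n`** (rectangular lattices). -/
theorem omega_pos (L : PeriodPair) (Op Om : ℝ) (hOp : 0 < Op) (hOm : 0 < Om) {c4 c6 : ℤ}
    (hg2 : L.g₂ = c4 / 12) (hg3 : L.g₃ = c6 / 216)
    (hL : ∀ w : ℂ, w ∈ L.lattice ↔ ∃ a b : ℤ, w = a * Op + b * Om * Complex.I)
    (n : ℕ) (hn : 0 < n) (W : WeierstrassCurve ℤ) (h4 : W.c₄ = c4 * (n : ℤ) ^ 2)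
    (h6 : W.c₆ = c6 * (n : ℤ) ^ 3) : Omega W = 2 * Op / √n := by
  have hn0 : (0 : ℝ) < n := by exact_mod_cast hn
  have hs : (0 : ℝ) < √n := Real.sqrt_pos.2 hn0
  have hs2 : (√(n : ℝ)) ^ 2 = n := Real.sq_sqrt hn0.le
  have hsC : ((√(n : ℝ) : ℝ) : ℂ) ^ 2 = (n : ℂ) := by
    rw [← Complex.ofReal_pow, hs2]
    simp
  have hs0 : ((√(n : ℝ) : ℝ) : ℂ) ≠ 0 := by exact_mod_cast hs.ne'
  have hnC : (n : ℂ) ≠ 0 := by exact_mod_cast hn.ne'
  set c : ℂ := 1 / ((√(n : ℝ) : ℝ) : ℂ) with hc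
  have hc0 : c ≠ 0 := div_ne_zero one_ne_zero hs0
  have c2 : c ^ 2 = 1 / (n : ℂ) := by
    rw [hc, div_pow, hsC]
    ring
  have c4' : c ^ 4 = 1 / (n : ℂ) ^ 2 := by
    have : c ^ 4 = (c ^ 2) ^ 2 := by ring
    rw [this, c2]
    ring
  have c6' : c ^ 6 = 1 / (n : ℂ) ^ 3 := by
    have : c ^ 6 = (c ^ 2) ^ 3 := by ring
    rw [this, c2]
    ring
  have key := Pool.Agent.R425.P.s_perrP W (sc c hc0 L) (Op / √n) (Om / √n) (div_pos hOp hs)
    (div_pos hOm hs) (by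
      rw [g2_sc, hg2, h4, c4']
      push_cast
      field_simp) (by
      rw [g3_sc, hg3, h6, c6']
      push_cast
      field_simp) (by
      intro w
      rw [mem_sc]
      constructor
      · rintro ⟨l, hl, rfl⟩
        obtain ⟨a, b, rfl⟩ := (hL _).1 hl
        refine ⟨a, b, ?_⟩
        rw [hc]
        push_cast
        field_simp
      · rintro ⟨a, b, rfl⟩
        refine ⟨a * Op + b * Om * Complex.I, (hL _).2 ⟨a, b, rfl⟩, ?_⟩
        rw [hc]
        push_cast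
        field_simp)
  rw [omega_eq, key]
  ring

end Pool.Agent.N971.EX
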