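import Pool.Agent.N974.Gen.Mel
import Pool.Agent.N975.LfinE
import Pool.Agent.Y700.Lm

/-!
# The central values of quadratic twists in terms of the symbol
-/

set_option autoImplicit false
set_option linter.style.haveILetI false

open Complex Filter Topology Set UpperHalfPlane MatrixGroups CongruenceSubgroup ZMod

namespace Pool.Agent.N971.EX

open Pool.Agent.N974.Gen
open Pool.Agent.W97.MT (ap)
open Pool.Agent.Y700 (IsL)
open Pool.Agent.Y687 (p_cpow)
open Pool.Agent.N969.P15 (un)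

variable {N : ℕ} [NeZero N] {f : CuspForm (Gamma0 N : Subgroup (GL (Fin 2) ℝ)) 2} {a : ℕ → ℤ}

/-- the `L`-function of the quadratic twist -/
theorem exists_LG (h : Eigen f a) (W : WeierstrassCurve ℤ) {q : ℕ} [NeZero q]
    (χ : DirichletCharacter ℂ q) (hχ : χ.IsPrimitive) (hinv : χ⁻¹ = χ)
    (w : ℕ → ℤ) (hw : ∀ u : ℕ, χ (u : ZMod q) = (w u : ℂ))
    (hv : ∀ p : ℕ, p.Prime → w p = 0 ∨ w p = 1 ∨ w p = -1)
    (ha : ∀ p : ℕ, p.Prime → ap W p = a p * w p)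
    (hΔ : ∀ p : ℕ, p.Prime → ((p : ℤ) ∣ W.Δ ↔ p ∣ N ∨ w p = 0)) :
    ∃ g : ℂ → ℂ, IsL W g ∧
      gaussSum χ (stdAddChar (N := q)) * g 1 = ∑ a ∈ un q, (w a : ℂ) * II f ((a : ℚ) / q) := by
  obtain ⟨g, hg1, hg2, hg3⟩ := exists_L_all f h χ hχ
  refine ⟨g, ⟨hg1, ?_⟩, ?_⟩
  · intro s hs
    refine (congrArg (fun g => HasProd g _) (funext fun p => ?_)).mp (hg2 s hs)
    have hpp : (p : ℕ).Prime := p.2
    rw [hw, ha p hpp]
    rcases hv p hpp with h0 | h0
    · have hbad : ((p : ℕ) : ℤ) ∣ W.Δ := (hΔ p hpp).2 (Or.inr h0)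
      rw [h0, if_pos hbad]
      simp
    · have hne : w (p : ℕ) ≠ 0 := by rcases h0 with h | h <;> rw [h] <;> norm_num
      have hx2 : ((w (p : ℕ) : ℤ) : ℂ) ^ 2 = 1 := by
        rcases h0 with h | h <;> rw [h] <;> norm_num
      rw [hx2]
      have hΔ' : ((p : ℕ) : ℤ) ∣ W.Δ ↔ (p : ℕ) ∣ N := by
        rw [hΔ p hpp]
        tauto
      by_cases h15' : (p : ℕ) ∣ N
      · rw [if_pos h15', if_pos (hΔ'.2 h15')]
        push_cast
        ring
      · rw [if_neg h15', if_neg (fun h => h15' (hΔ'.1 h)), mul_one, p_cpow hpp.ne_zero]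
        push_cast
        ring
  · rw [hinv] at hg3
    rw [hg3, Pool.Agent.N975.LfinE.sum_unC]
    refine Finset.sum_congr rfl fun u _ => ?_
    rw [← hw, ZMod.natCast_zmod_val]

/-- the sum and its complex conjugate -/
theorem sum_conj (hr : RealCoef f) {q : ℕ} (hq : 1 < q)
    (w : ℕ → ℤ) (e : ℤ)
    (hw : ∀ a, a < q → 0 < a → w (q - a) = e * w a) (he : e ^ 2 = 1) :
    (starRingEnd ℂ) (∑ a ∈ un q, (w a : ℂ) * II f ((a : ℚ) / q)) =
      e * ∑ a ∈ un q, (w a : ℂ) * II f ((a : ℚ) / q) := by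
  have mem : ∀ a, a ∈ un q ↔ a < q ∧ Nat.Coprime a q := by
    intro a
    unfold un
    rw [Finset.mem_filter, Finset.mem_range]
  have h0 : ∀ a ∈ un q, 0 < a := by
    intro a ha
    rw [mem] at ha
    rcases Nat.eq_zero_or_pos a with h | h
    · rw [h, Nat.coprime_zero_left] at ha
      omega
    · exact h
  rw [map_sum, Finset.mul_sum]
  refine Finset.sum_bij' (fun a _ => q - a) (fun a _ => q - a) ?_ ?_ ?_ ?_ ?_
  · intro a ha
    have := h0 a ha
    rw [mem] at ha ⊢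
    exact ⟨by omega, (Nat.coprime_self_sub_left ha.1.le).2 ha.2⟩
  · intro a ha
    have := h0 a ha
    rw [mem] at ha ⊢
    exact ⟨by omega, (Nat.coprime_self_sub_left ha.1.le).2 ha.2⟩
  · intro a ha
    rw [mem] at ha
    have := ha.1
    show q - (q - a) = a
    omega
  · intro a ha
    rw [mem] at ha
    have := ha.1
    show q - (q - a) = a
    omega
  · intro a ha
    have hp := h0 a ha
    rw [mem] at ha
    have hn : (q : ℚ) ≠ 0 := by exact_mod_cast (by omega : q ≠ 0)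
    have e1 : (((q - a : ℕ) : ℚ) / q) = -((a : ℚ) / q) + 1 := by
      rw [Nat.cast_sub ha.1.le]
      field_simp
      ring
    rw [e1, II_add_one, II_conj f hr, hw a ha.1 hp, map_mul, map_intCast]
    have he2 : (e : ℂ) ^ 2 = 1 := by exact_mod_cast he
    push_cast
    linear_combination (-(w a : ℂ) * (starRingEnd ℂ) (II f ((a : ℚ) / q))) * he2

/-- **the central value for an odd character** -/
theorem value_odd (h : Eigen f a) (W : WeierstrassCurve ℤ) {q : ℕ} [NeZero q] (hq : 1 < q)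
    (χ : DirichletCharacter ℂ q) (hχ : χ.IsPrimitive) (hinv : χ⁻¹ = χ) (hodd : χ (-1) = -1)
    (hG : gaussSum χ (stdAddChar (N := q)) = Complex.I * ((Real.sqrt q : ℝ) : ℂ))
    (w : ℕ → ℤ) (hw : ∀ u : ℕ, χ (u : ZMod q) = (w u : ℂ))
    (hv : ∀ p : ℕ, p.Prime → w p = 0 ∨ w p = 1 ∨ w p = -1)
    (ha : ∀ p : ℕ, p.Prime → ap W p = a p * w p)
    (hΔ : ∀ p : ℕ, p.Prime → ((p : ℤ) ∣ W.Δ ↔ p ∣ N ∨ w p = 0)) :
    ∃ g : ℂ → ℂ, IsL W g ∧
      g 1 = (((∑ a ∈ un q, (w a : ℝ) * (II f ((a : ℚ) / q)).im) / Real.sqrt q : ℝ) : ℂ) := by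
  obtain ⟨g, hg, hv'⟩ := exists_LG h W χ hχ hinv w hw hv ha hΔ
  refine ⟨g, hg, ?_⟩
  set S : ℂ := ∑ a ∈ un q, (w a : ℂ) * II f ((a : ℚ) / q) with hS
  have hq0 : (0 : ℝ) < q := by exact_mod_cast (by omega : 0 < q)
  have hsq : ((Real.sqrt q : ℝ) : ℂ) ≠ 0 := by exact_mod_cast (Real.sqrt_pos.2 hq0).ne'
  have h1 := sum_conj (f := f) h.real hq w (-1) (by
    intro a ha1 ha0
    have e1 : ((w (q - a) : ℤ) : ℂ) = ((-1 * w a : ℤ) : ℂ) := by
      rw [← hw, Nat.cast_sub ha1.le, ZMod.natCast_self, zero_sub, neg_eq_neg_one_mul, map_mul,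
        hodd, hw]
      push_cast
      ring
    exact_mod_cast e1) (by norm_num)
  rw [← hS] at h1
  have hre : S.re = 0 := by
    have h2 := congrArg Complex.re h1
    simp at h2
    linarith
  have him : S.im = ∑ a ∈ un q, (w a : ℝ) * (II f ((a : ℚ) / q)).im := by
    rw [hS, Complex.im_sum]
    refine Finset.sum_congr rfl fun a _ => ?_
    have : ((w a : ℤ) : ℂ) = (((w a : ℤ) : ℝ) : ℂ) := by push_cast; rfl
    rw [this, Complex.im_ofReal_mul]
  have hS' : S = Complex.I * (S.im : ℂ) := by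
    apply Complex.ext
    · simp [hre]
    · simp
  rw [hG, hS'] at hv'
  rw [← him]
  push_cast
  rw [eq_div_iff hsq]
  have h3 : Complex.I * (g 1 * ((Real.sqrt q : ℝ) : ℂ)) = Complex.I * (S.im : ℂ) := by
    rw [← hv']
    ring
  exact mul_left_cancel₀ Complex.I_ne_zero h3

/-- **the central value for an even character** -/
theorem value_even (h : Eigen f a) (W : WeierstrassCurve ℤ) {q : ℕ} [NeZero q] (hq : 1 < q)
    (χ : DirichletCharacter ℂ q) (hχ : χ.IsPrimitive) (hinv : χ⁻¹ = χ) (heven : χ (-1) = 1)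
    (hG : gaussSum χ (stdAddChar (N := q)) = ((Real.sqrt q : ℝ) : ℂ))
    (w : ℕ → ℤ) (hw : ∀ u : ℕ, χ (u : ZMod q) = (w u : ℂ))
    (hv : ∀ p : ℕ, p.Prime → w p = 0 ∨ w p = 1 ∨ w p = -1)
    (ha : ∀ p : ℕ, p.Prime → ap W p = a p * w p)
    (hΔ : ∀ p : ℕ, p.Prime → ((p : ℤ) ∣ W.Δ ↔ p ∣ N ∨ w p = 0)) :
    ∃ g : ℂ → ℂ, IsL W g ∧
      g 1 = (((∑ a ∈ un q, (w a : ℝ) * (II f ((a : ℚ) / q)).re) / Real.sqrt q : ℝ) : ℂ) := by
  obtain ⟨g, hg, hv'⟩ := exists_LG h W χ hχ hinv w hw hv ha hΔ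
  refine ⟨g, hg, ?_⟩
  set S : ℂ := ∑ a ∈ un q, (w a : ℂ) * II f ((a : ℚ) / q) with hS
  have hq0 : (0 : ℝ) < q := by exact_mod_cast (by omega : 0 < q)
  have hsq : ((Real.sqrt q : ℝ) : ℂ) ≠ 0 := by exact_mod_cast (Real.sqrt_pos.2 hq0).ne'
  have h1 := sum_conj (f := f) h.real hq w 1 (by
    intro a ha1 ha0
    have e1 : ((w (q - a) : ℤ) : ℂ) = ((1 * w a : ℤ) : ℂ) := by
      rw [← hw, Nat.cast_sub ha1.le, ZMod.natCast_self, zero_sub, neg_eq_neg_one_mul, map_mul,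
        heven, hw]
      push_cast
      ring
    exact_mod_cast e1) (by norm_num)
  rw [← hS] at h1
  have him : S.im = 0 := by
    have h2 := congrArg Complex.im h1
    simp at h2
    linarith
  have hre : S.re = ∑ a ∈ un q, (w a : ℝ) * (II f ((a : ℚ) / q)).re := by
    rw [hS, Complex.re_sum]
    refine Finset.sum_congr rfl fun a _ => ?_
    have : ((w a : ℤ) : ℂ) = (((w a : ℤ) : ℝ) : ℂ) := by push_cast; rfl
    rw [this, Complex.re_ofReal_mul]
  have hS' : S = (S.re : ℂ) := by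
    apply Complex.ext
    · simp
    · simp [him]
  rw [hG, hS'] at hv'
  rw [← hre]
  push_cast
  rw [eq_div_iff hsq, ← hv']
  ring

end Pool.Agent.N971.EX
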