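import Pool.Agent.N971.EX.Gs
import Pool.Agent.N975.ChE
import Pool.Agent.N973.P15.C1A
import Pool.Agent.N969.P17G.Defs2
import Pool.Agent.N402.P15.C1B

/-!
# The Gauss sums of the real primitive characters of even conductor
-/

set_option autoImplicit false
set_option linter.style.haveILetI false

open Complex ZMod

namespace Pool.Agent.N971.EX

open Pool.Agent.N969.P15 (un psp psp2 Ev c2 chE)
open Pool.Agent.N972.P17 (Cp Cm Cme Cpe)
open Pool.Agent.N969.P17G (chP chM CpE)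
open Pool.Agent.N975.ChE (c2_mul c2_pm c2_even)
open Pool.Agent.N973.P15.C (prod_odd)

theorem e_val (x : ℝ) : Complex.exp (((2 * Real.pi * x : ℝ) : ℂ) * Complex.I) =
    ((Real.cos (2 * Real.pi * x) : ℝ) : ℂ) + ((Real.sin (2 * Real.pi * x) : ℝ) : ℂ) * Complex.I := by
  rw [Complex.exp_mul_I]
  push_cast
  rfl

/-- the Gauss sum modulo `4` -/
theorem sum4 {n : ℕ} (hn : n % 16 = 4) : ∑ a ∈ Finset.range 4, ((c2 n a : ℤ) : ℂ) *
    Complex.exp (((2 * Real.pi * (a : ℝ) / (4 : ℕ) : ℝ) : ℂ) * Complex.I) = 2 * Complex.I := by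
  have v0 : c2 n 0 = 0 := c2_even n (by norm_num)
  have v1 : c2 n 1 = 1 := by unfold c2; norm_num
  have v2 : c2 n 2 = 0 := c2_even n (by norm_num)
  have v3 : c2 n 3 = -1 := by unfold c2; rw [if_pos hn]; norm_num
  have e1 : Complex.exp (((2 * Real.pi * ((1 : ℕ) : ℝ) / (4 : ℕ) : ℝ) : ℂ) * Complex.I) =
      Complex.I := by
    have : (2 * Real.pi * ((1 : ℕ) : ℝ) / (4 : ℕ) : ℝ) = Real.pi / 2 := by push_cast; ring
    rw [this, Complex.exp_mul_I, ← Complex.ofReal_cos, ← Complex.ofReal_sin, Real.cos_pi_div_two,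
      Real.sin_pi_div_two]
    simp
  have e3 : Complex.exp (((2 * Real.pi * ((3 : ℕ) : ℝ) / (4 : ℕ) : ℝ) : ℂ) * Complex.I) =
      -Complex.I := by
    have : (2 * Real.pi * ((3 : ℕ) : ℝ) / (4 : ℕ) : ℝ) = Real.pi / 2 + Real.pi := by
      push_cast; ring
    rw [this, Complex.exp_mul_I, ← Complex.ofReal_cos, ← Complex.ofReal_sin, Real.cos_add_pi,
      Real.sin_add_pi, Real.cos_pi_div_two, Real.sin_pi_div_two]
    simp
  simp only [Finset.sum_range_succ, Finset.sum_range_zero]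
  push_cast at e1 e3 ⊢
  rw [v0, v1, v2, v3, e1, e3]
  push_cast
  ring

theorem e8 : Complex.exp (((2 * Real.pi * ((1 : ℕ) : ℝ) / (8 : ℕ) : ℝ) : ℂ) * Complex.I) =
      ((√2 / 2 : ℝ) : ℂ) * (1 + Complex.I) ∧
    Complex.exp (((2 * Real.pi * ((3 : ℕ) : ℝ) / (8 : ℕ) : ℝ) : ℂ) * Complex.I) =
      ((√2 / 2 : ℝ) : ℂ) * (-1 + Complex.I) ∧
    Complex.exp (((2 * Real.pi * ((5 : ℕ) : ℝ) / (8 : ℕ) : ℝ) : ℂ) * Complex.I) =
      ((√2 / 2 : ℝ) : ℂ) * (-1 - Complex.I) ∧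
    Complex.exp (((2 * Real.pi * ((7 : ℕ) : ℝ) / (8 : ℕ) : ℝ) : ℂ) * Complex.I) =
      ((√2 / 2 : ℝ) : ℂ) * (1 - Complex.I) := by
  refine ⟨?_, ?_, ?_, ?_⟩
  · have : (2 * Real.pi * ((1 : ℕ) : ℝ) / (8 : ℕ) : ℝ) = Real.pi / 4 := by push_cast; ring
    rw [this, Complex.exp_mul_I, ← Complex.ofReal_cos, ← Complex.ofReal_sin, Real.cos_pi_div_four,
      Real.sin_pi_div_four]
    ring
  · have : (2 * Real.pi * ((3 : ℕ) : ℝ) / (8 : ℕ) : ℝ) = Real.pi - Real.pi / 4 := by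
      push_cast; ring
    rw [this, Complex.exp_mul_I, ← Complex.ofReal_cos, ← Complex.ofReal_sin, Real.cos_pi_sub,
      Real.sin_pi_sub, Real.cos_pi_div_four, Real.sin_pi_div_four]
    push_cast
    ring
  · have : (2 * Real.pi * ((5 : ℕ) : ℝ) / (8 : ℕ) : ℝ) = Real.pi / 4 + Real.pi := by
      push_cast; ring
    rw [this, Complex.exp_mul_I, ← Complex.ofReal_cos, ← Complex.ofReal_sin, Real.cos_add_pi,
      Real.sin_add_pi, Real.cos_pi_div_four, Real.sin_pi_div_four]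
    push_cast
    ring
  · have : (2 * Real.pi * ((7 : ℕ) : ℝ) / (8 : ℕ) : ℝ) = 2 * Real.pi - Real.pi / 4 := by
      push_cast; ring
    rw [this, Complex.exp_mul_I, ← Complex.ofReal_cos, ← Complex.ofReal_sin, Real.cos_two_pi_sub,
      Real.sin_two_pi_sub, Real.cos_pi_div_four, Real.sin_pi_div_four]
    push_cast
    ring

/-- the Gauss sum of the odd character modulo `8` -/
theorem sum8m {n : ℕ} (hn : n % 32 = 8) : ∑ a ∈ Finset.range 8, ((c2 n a : ℤ) : ℂ) *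
    Complex.exp (((2 * Real.pi * (a : ℝ) / (8 : ℕ) : ℝ) : ℂ) * Complex.I) =
    2 * ((√2 : ℝ) : ℂ) * Complex.I := by
  have h16 : ¬ n % 16 = 4 := by omega
  have v0 : c2 n 0 = 0 := c2_even n (by norm_num)
  have v1 : c2 n 1 = 1 := by unfold c2; norm_num
  have v2 : c2 n 2 = 0 := c2_even n (by norm_num)
  have v3 : c2 n 3 = 1 := by unfold c2; rw [if_neg h16, if_pos hn]; norm_num
  have v4 : c2 n 4 = 0 := c2_even n (by norm_num)
  have v5 : c2 n 5 = -1 := by unfold c2; rw [if_neg h16, if_pos hn]; norm_num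
  have v6 : c2 n 6 = 0 := c2_even n (by norm_num)
  have v7 : c2 n 7 = -1 := by unfold c2; rw [if_neg h16, if_pos hn]; norm_num
  obtain ⟨e1, e3, e5, e7⟩ := e8
  simp only [Finset.sum_range_succ, Finset.sum_range_zero]
  push_cast at e1 e3 e5 e7 ⊢
  rw [v0, v1, v2, v3, v4, v5, v6, v7, e1, e3, e5, e7]
  push_cast
  ring

/-- the Gauss sum of the even character modulo `8` -/
theorem sum8p {n : ℕ} (hn : n % 32 = 24) : ∑ a ∈ Finset.range 8, ((c2 n a : ℤ) : ℂ) *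
    Complex.exp (((2 * Real.pi * (a : ℝ) / (8 : ℕ) : ℝ) : ℂ) * Complex.I) =
    2 * ((√2 : ℝ) : ℂ) := by
  have h16 : ¬ n % 16 = 4 := by omega
  have h32 : ¬ n % 32 = 8 := by omega
  have v0 : c2 n 0 = 0 := c2_even n (by norm_num)
  have v1 : c2 n 1 = 1 := by unfold c2; norm_num
  have v2 : c2 n 2 = 0 := c2_even n (by norm_num)
  have v3 : c2 n 3 = -1 := by unfold c2; rw [if_neg h16, if_neg h32]; norm_num
  have v4 : c2 n 4 = 0 := c2_even n (by norm_num)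
  have v5 : c2 n 5 = -1 := by unfold c2; rw [if_neg h16, if_neg h32]; norm_num
  have v6 : c2 n 6 = 0 := c2_even n (by norm_num)
  have v7 : c2 n 7 = 1 := by unfold c2; rw [if_neg h16, if_neg h32]; norm_num
  obtain ⟨e1, e3, e5, e7⟩ := e8
  simp only [Finset.sum_range_succ, Finset.sum_range_zero]
  push_cast at e1 e3 e5 e7 ⊢
  rw [v0, v1, v2, v3, v4, v5, v6, v7, e1, e3, e5, e7]
  push_cast
  ring

theorem c2_per4 {n : ℕ} (hn : n % 16 = 4) (u v : ℤ) : c2 n (u + (4 : ℕ) * v) = c2 n u := by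
  unfold c2
  rw [if_pos hn]
  have h1 : (u + ((4 : ℕ) : ℤ) * v) % 2 = u % 2 := by push_cast; omega
  have h2 : (u + ((4 : ℕ) : ℤ) * v) % 4 = u % 4 := by push_cast; omega
  rw [h1, h2, if_pos hn]

theorem c2_per8 {n : ℕ} (hn : n % 16 = 8) (u v : ℤ) : c2 n (u + (8 : ℕ) * v) = c2 n u := by
  unfold c2
  have h16 : ¬ n % 16 = 4 := by omega
  have h1 : (u + ((8 : ℕ) : ℤ) * v) % 2 = u % 2 := by push_cast; omega
  have h2 : (u + ((8 : ℕ) : ℤ) * v) % 8 = u % 8 := by push_cast; omega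
  rw [if_neg h16, h1, h2, if_neg h16]

theorem sqrt_mul4 (M : ℕ) : ((√((4 * M : ℕ) : ℝ) : ℝ) : ℂ) = 2 * ((√(M : ℝ) : ℝ) : ℂ) := by
  have : √((4 * M : ℕ) : ℝ) = 2 * √(M : ℝ) := by
    push_cast
    rw [Real.sqrt_mul (by norm_num), show (4 : ℝ) = 2 ^ 2 by norm_num, Real.sqrt_sq (by norm_num)]
  rw [this]
  push_cast
  ring

theorem sqrt_mul8 (M : ℕ) : ((√((8 * M : ℕ) : ℝ) : ℝ) : ℂ) =
    2 * ((√2 : ℝ) : ℂ) * ((√(M : ℝ) : ℝ) : ℂ) := by
  have : √((8 * M : ℕ) : ℝ) = 2 * √2 * √(M : ℝ) := by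
    push_cast
    rw [Real.sqrt_mul (by norm_num), show (8 : ℝ) = 2 ^ 2 * 2 by norm_num,
      Real.sqrt_mul (by norm_num), Real.sqrt_sq (by norm_num)]
  rw [this]
  push_cast
  ring

theorem gauss_prod' {N q M : ℕ} (hN : N = q * M) [NeZero q] [NeZero M] (hc : Nat.Coprime q M)
    [NeZero N] (χ : DirichletCharacter ℂ N) (ψ : ℤ → ℤ)
    (hper : ∀ u v : ℤ, ψ (u + q * v) = ψ u) (hmul : ∀ u v : ℤ, ψ (u * v) = ψ u * ψ v)
    (hχ : ∀ m : ℕ, χ (m : ZMod N) = ((ψ m * jacobiSym (m : ℤ) M : ℤ) : ℂ)) :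
    gaussSum χ (stdAddChar (N := N)) = ψ M * jacobiSym (q : ℤ) M *
      (∑ a ∈ Finset.range q, (ψ a : ℂ) *
        Complex.exp (((2 * Real.pi * (a : ℝ) / q : ℝ) : ℂ) * Complex.I)) * gJ M := by
  subst hN
  exact gauss_prod hc χ ψ hper hmul hχ

/-- the values at `2` -/
theorem jac_four {M : ℕ} (hM : M % 2 = 1) : jacobiSym ((4 : ℕ) : ℤ) M = 1 := by
  have h1 : Int.gcd 2 M = 1 := by
    have h2 : Nat.Coprime 2 M := Nat.coprime_two_left.2 (Nat.odd_iff.2 hM)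
    exact_mod_cast h2
  have e : (((4 : ℕ) : ℤ)) = 2 ^ 2 := by norm_num
  rw [e, jacobiSym.pow_left, jacobiSym.sq_one h1]

theorem jac_eight {M : ℕ} (hM : M % 2 = 1) : jacobiSym ((8 : ℕ) : ℤ) M = jacobiSym 2 M := by
  have e : (((8 : ℕ) : ℤ)) = ((4 : ℕ) : ℤ) * 2 := by norm_num
  rw [e, jacobiSym.mul_left, jac_four hM, one_mul]

theorem jac_two {M : ℕ} (hM : M % 2 = 1) : jacobiSym 2 M =
    if M % 8 = 1 ∨ M % 8 = 7 then 1 else -1 := by
  rw [jacobiSym.at_two (Nat.odd_iff.2 hM), ZMod.χ₈_nat_eq_if_mod_eight, if_neg (by omega)]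

/-- even conductor, the general form: `n = 4 m`, `ψ` the character at `2` of `k` -/
theorem gauss_two (k : ℕ) {m : ℕ} (hs : Squarefree m) [NeZero (4 * m)]
    (χ : DirichletCharacter ℂ (4 * m))
    (hk : (m % 2 = 1 ∧ k % 16 = 4) ∨ (m % 2 = 0 ∧ k % 16 = 8))
    (hχ : ∀ u : ℕ, χ (u : ZMod (4 * m)) =
      ((c2 k u * ∏ p ∈ (4 * m).primeFactors.erase 2, jacobiSym (u : ℤ) p : ℤ) : ℂ)) :
    gaussSum χ (stdAddChar (N := 4 * m)) =
      if m % 2 = 1 then c2 k m * (2 * Complex.I) * gJ m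
      else c2 k (m / 2 : ℕ) * jacobiSym 2 (m / 2) *
        (2 * ((√2 : ℝ) : ℂ) * (if k % 32 = 8 then Complex.I else 1)) * gJ (m / 2) := by
  have hm0 : m ≠ 0 := hs.ne_zero
  have hP : ∀ p ∈ (4 * m).primeFactors.erase 2, p.Prime := fun p hp =>
    Nat.prime_of_mem_primeFactors (Finset.mem_of_mem_erase hp)
  rcases hk with ⟨hm, hk⟩ | ⟨hm, hk⟩
  · haveI : NeZero m := ⟨hm0⟩
    haveI : NeZero 4 := ⟨by norm_num⟩
    have hc : Nat.Coprime 4 m := by
      have : Nat.Coprime 2 m := Nat.coprime_two_left.2 (Nat.odd_iff.2 hm)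
      exact Nat.Coprime.pow_left 2 this
    have h1 := gauss_prod hc χ (c2 k) (c2_per4 hk) (c2_mul k) (fun u => by
      rw [hχ, ← Pool.Agent.N402.P15.jac_pr hP, prod_odd hs, if_pos hm])
    rw [h1, if_pos hm, sum4 hk, jac_four hm]
    push_cast
    ring
  · obtain ⟨l, rfl⟩ : ∃ l, m = 2 * l := ⟨m / 2, by omega⟩
    have hl0 : l ≠ 0 := by omega
    have hl2 : l % 2 = 1 := by
      by_contra h
      obtain ⟨j, rfl⟩ : ∃ j, l = 2 * j := ⟨l / 2, by omega⟩
      have := hs 2 ⟨j, by ring⟩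
      rw [Nat.isUnit_iff] at this
      omega
    haveI : NeZero l := ⟨hl0⟩
    haveI : NeZero 8 := ⟨by norm_num⟩
    have e0 : 4 * (2 * l) = 8 * l := by ring
    have e1 : 2 * l / 2 = l := by omega
    have hprod : ∏ p ∈ (4 * (2 * l)).primeFactors.erase 2, p = l := by
      rw [prod_odd hs, if_neg (by omega), e1]
    have hc : Nat.Coprime 8 l := by
      have : Nat.Coprime 2 l := Nat.coprime_two_left.2 (Nat.odd_iff.2 hl2)
      exact Nat.Coprime.pow_left 3 this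
    have hJ : ∀ u : ℤ, ∏ p ∈ (4 * (2 * l)).primeFactors.erase 2, jacobiSym u p = jacobiSym u l := by
      intro u
      rw [← Pool.Agent.N402.P15.jac_pr hP, hprod]
    simp only [hJ] at hχ
    rw [if_neg (by omega), e1]
    have h1 := gauss_prod' e0 hc χ (c2 k) (c2_per8 hk) (c2_mul k) hχ
    rw [h1, jac_eight hl2]
    by_cases h32 : k % 32 = 8
    · rw [sum8m h32, if_pos h32]
    · rw [sum8p (by omega), if_neg h32, mul_one]

theorem c2_val8 {k m : ℕ} (hm : m % 2 = 1) (hk : k % 16 = 8) : c2 k m = if k % 32 = 8 then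
    (if m % 8 = 1 ∨ m % 8 = 3 then 1 else -1) else (if m % 8 = 1 ∨ m % 8 = 7 then 1 else -1) := by
  unfold c2
  have h0 : ¬ (m : ℤ) % 2 = 0 := by omega
  have h16 : ¬ k % 16 = 4 := by omega
  rw [if_neg h0, if_neg h16]
  have e1 : ((m : ℤ) % 8 = 1 ∨ (m : ℤ) % 8 = 3) ↔ (m % 8 = 1 ∨ m % 8 = 3) := by omega
  have e2 : ((m : ℤ) % 8 = 1 ∨ (m : ℤ) % 8 = 7) ↔ (m % 8 = 1 ∨ m % 8 = 7) := by omega
  simp only [e1, e2]

/-- **the Gauss sum of a negative even discriminant** -/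
theorem gauss_chE {n : ℕ} [NeZero n] (hE : Ev n) (χ : DirichletCharacter ℂ n)
    (hχ : ∀ u : ℕ, χ (u : ZMod n) = ((chE n u : ℤ) : ℂ)) :
    gaussSum χ (stdAddChar (N := n)) = Complex.I * ((√(n : ℝ) : ℝ) : ℂ) := by
  obtain ⟨m, rfl, hs, hm⟩ := hE
  have hm0 : m ≠ 0 := hs.ne_zero
  rw [gauss_two (4 * m) hs χ (by omega) hχ]
  rcases hm with hm | hm
  · rw [if_pos (by omega), gJ_one hs hm, sqrt_mul4]
    have v : c2 (4 * m) m = 1 := by
      unfold c2
      rw [if_neg (by omega), if_pos (by omega), if_pos (by omega)]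
    rw [v]
    push_cast
    ring
  · rw [if_neg (by omega)]
    obtain ⟨l, rfl⟩ : ∃ l, m = 2 * l := ⟨m / 2, by omega⟩
    have e1 : 2 * l / 2 = l := by omega
    have hl2 : l % 2 = 1 := by omega
    have hls : Squarefree l := hs.squarefree_of_dvd (Dvd.intro_left 2 rfl)
    have e8 : ((4 * (2 * l) : ℕ) : ℝ) = ((8 * l : ℕ) : ℝ) := by push_cast; ring
    rw [e1, e8, sqrt_mul8, c2_val8 hl2 (by omega), jac_two hl2]
    by_cases h32 : 4 * (2 * l) % 32 = 8
    · rw [if_pos h32, if_pos h32, gJ_one hls (by omega)]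
      have h8 : l % 8 = 1 ∨ l % 8 = 5 := by omega
      rcases h8 with h8 | h8
      · rw [if_pos (by omega), if_pos (by omega)]
        push_cast
        ring
      · rw [if_neg (by omega), if_neg (by omega)]
        push_cast
        ring
    · rw [if_neg h32, if_neg h32, gJ_three hls (by omega)]
      have h8 : l % 8 = 3 ∨ l % 8 = 7 := by omega
      rcases h8 with h8 | h8
      · rw [if_neg (by omega)]
        push_cast
        ring
      · rw [if_pos (by omega)]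
        push_cast
        ring

/-- **the Gauss sum of a positive even discriminant** -/
theorem gauss_chP {m : ℕ} (hs : Squarefree m) (hm : m % 4 = 2 ∨ m % 4 = 3) [NeZero (4 * m)]
    (χ : DirichletCharacter ℂ (4 * m))
    (hχ : ∀ u : ℕ, χ (u : ZMod (4 * m)) = ((chP (4 * m) u : ℤ) : ℂ)) :
    gaussSum χ (stdAddChar (N := 4 * m)) = ((√((4 * m : ℕ) : ℝ) : ℝ) : ℂ) := by
  have hm0 : m ≠ 0 := hs.ne_zero
  have h2 : 2 ∣ 4 * m := by omega
  have hχ' : ∀ u : ℕ, χ (u : ZMod (4 * m)) = ((c2 (3 * (4 * m)) u *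
      ∏ p ∈ (4 * m).primeFactors.erase 2, jacobiSym (u : ℤ) p : ℤ) : ℂ) := by
    intro u
    rw [hχ]
    unfold chP
    rw [if_pos h2]
  rw [gauss_two (3 * (4 * m)) hs χ (by omega) hχ']
  rcases hm with hm | hm
  · rw [if_neg (by omega)]
    obtain ⟨l, rfl⟩ : ∃ l, m = 2 * l := ⟨m / 2, by omega⟩
    have e1 : 2 * l / 2 = l := by omega
    have hl2 : l % 2 = 1 := by omega
    have hls : Squarefree l := hs.squarefree_of_dvd (Dvd.intro_left 2 rfl)
    have e8 : ((4 * (2 * l) : ℕ) : ℝ) = ((8 * l : ℕ) : ℝ) := by push_cast; ring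
    rw [e1, e8, sqrt_mul8, c2_val8 hl2 (by omega), jac_two hl2]
    by_cases h32 : 3 * (4 * (2 * l)) % 32 = 8
    · rw [if_pos h32, if_pos h32, gJ_three hls (by omega)]
      have h8 : l % 8 = 3 ∨ l % 8 = 7 := by omega
      rcases h8 with h8 | h8
      · rw [if_pos (by omega), if_neg (by omega)]
        push_cast
        linear_combination (-2 * ((√2 : ℝ) : ℂ) * ((√(l : ℝ) : ℝ) : ℂ)) * Complex.I_sq
      · rw [if_neg (by omega), if_pos (by omega)]
        push_cast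
        linear_combination (-2 * ((√2 : ℝ) : ℂ) * ((√(l : ℝ) : ℝ) : ℂ)) * Complex.I_sq
    · rw [if_neg h32, if_neg h32, gJ_one hls (by omega)]
      have h8 : l % 8 = 1 ∨ l % 8 = 5 := by omega
      rcases h8 with h8 | h8
      · rw [if_pos (by omega)]
        push_cast
        ring
      · rw [if_neg (by omega)]
        push_cast
        ring
  · rw [if_pos (by omega), gJ_three hs hm, sqrt_mul4]
    have v : c2 (3 * (4 * m)) m = -1 := by
      unfold c2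
      rw [if_neg (by omega), if_pos (by omega), if_neg (by omega)]
    rw [v]
    push_cast
    linear_combination (-2 * ((√(m : ℝ) : ℝ) : ℂ)) * Complex.I_sq

end Pool.Agent.N971.EX
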