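import Mathlib
import Pool.Agent.H268R2.RZ_HT

/-!
# The Gauss sums of the real primitive characters
-/

set_option autoImplicit false
set_option linter.style.haveILetI false

open Complex ZMod

namespace Pool.Agent.N971.EX

open Pool.Agent.H306R2.RZ (js Gk cas)

/-- the Gauss sum of the Jacobi symbol -/
noncomputable def gJ (M : ℕ) : ℂ := ∑ r ∈ Finset.range M, ((jacobiSym (r : ℤ) M : ℤ) : ℂ) *
  Complex.exp (((2 * Real.pi * (r : ℝ) / M : ℝ) : ℂ) * Complex.I)

theorem gJ_parts {M : ℕ} (hodd : Odd M) (hsq : Squarefree M) :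
    (gJ M).re + (gJ M).im = √(M : ℝ) ∧
    (gJ M).re - (gJ M).im = js (-1) M * √(M : ℝ) := by
  have h1 := Pool.Agent.H268R2.RZHT.Gk_all 1 M hodd hsq
  have h2 := Pool.Agent.H268R2.RZHT.Gk_all (-1) M hodd hsq
  have j1 : js 1 M = 1 := by
    unfold js
    rw [jacobiSym.one_left]; simp
  rw [j1, one_mul] at h1
  have e4 : ∀ r : ℕ, ((jacobiSym (r : ℤ) M : ℤ) : ℂ) = ((js (r : ℤ) M : ℝ) : ℂ) := by
    intro r
    unfold js
    push_cast
    rfl
  have hre : (gJ M).re = ∑ r ∈ Finset.range M, js (r : ℤ) M *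
      Real.cos (2 * Real.pi * (r : ℝ) / M) := by
    unfold gJ
    rw [Complex.re_sum]
    refine Finset.sum_congr rfl fun r _ => ?_
    rw [e4, Complex.re_ofReal_mul, Complex.exp_ofReal_mul_I_re]
  have him : (gJ M).im = ∑ r ∈ Finset.range M, js (r : ℤ) M *
      Real.sin (2 * Real.pi * (r : ℝ) / M) := by
    unfold gJ
    rw [Complex.im_sum]
    refine Finset.sum_congr rfl fun r _ => ?_
    rw [e4, Complex.im_ofReal_mul, Complex.exp_ofReal_mul_I_im]
  have e1 : Gk 1 M = (gJ M).re + (gJ M).im := by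
    unfold Gk
    rw [hre, him, ← Finset.sum_add_distrib]
    refine Finset.sum_congr rfl fun r _ => ?_
    unfold cas
    push_cast
    rw [mul_one]
    ring
  have e2 : Gk (-1) M = (gJ M).re - (gJ M).im := by
    unfold Gk
    rw [hre, him, ← Finset.sum_sub_distrib]
    refine Finset.sum_congr rfl fun r _ => ?_
    unfold cas
    have e : 2 * Real.pi * (((-1 : ℤ)) : ℝ) * (r : ℝ) / (M : ℝ) =
        -(2 * Real.pi * (r : ℝ) / (M : ℝ)) := by
      push_cast; ring
    rw [e, Real.cos_neg, Real.sin_neg]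
    ring
  exact ⟨e1.symm.trans h1, e2.symm.trans h2⟩

theorem gJ_three {M : ℕ} (hsq : Squarefree M) (h4 : M % 4 = 3) :
    gJ M = Complex.I * ((√(M : ℝ) : ℝ) : ℂ) := by
  have hodd : Odd M := Nat.odd_iff.2 (by omega)
  obtain ⟨h1, h2⟩ := gJ_parts hodd hsq
  have j2 : js (-1) M = -1 := by
    unfold js
    rw [jacobiSym.at_neg_one hodd, ZMod.χ₄_nat_three_mod_four h4]
    simp
  rw [j2] at h2
  apply Complex.ext
  · simp; linarith
  · simp; linarith

theorem gJ_one {M : ℕ} (hsq : Squarefree M) (h4 : M % 4 = 1) :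
    gJ M = ((√(M : ℝ) : ℝ) : ℂ) := by
  have hodd : Odd M := Nat.odd_iff.2 (by omega)
  obtain ⟨h1, h2⟩ := gJ_parts hodd hsq
  have j2 : js (-1) M = 1 := by
    unfold js
    rw [jacobiSym.at_neg_one hodd, ZMod.χ₄_nat_one_mod_four h4]
    simp
  rw [j2] at h2
  apply Complex.ext
  · simp; linarith
  · simp; linarith

/-- the Gauss sum as a sum over residues -/
theorem gauss_range {M : ℕ} [NeZero M] (χ : DirichletCharacter ℂ M) (w : ℕ → ℤ)
    (hχ : ∀ m : ℕ, χ (m : ZMod M) = (w m : ℂ)) :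
    gaussSum χ (stdAddChar (N := M)) = ∑ r ∈ Finset.range M, (w r : ℂ) *
      Complex.exp (((2 * Real.pi * (r : ℝ) / M : ℝ) : ℂ) * Complex.I) := by
  unfold gaussSum
  refine Finset.sum_nbij' (fun x : ZMod M => x.val) (fun i : ℕ => (i : ZMod M))
    (fun x _ => Finset.mem_range.2 (ZMod.val_lt x)) (fun i _ => Finset.mem_univ _)
    (fun x _ => ZMod.natCast_zmod_val x)
    (fun i hi => ZMod.val_natCast_of_lt (Finset.mem_range.1 hi)) fun x _ => ?_
  rw [← hχ, ZMod.natCast_zmod_val]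
  congr 1
  conv_lhs => rw [← ZMod.natCast_zmod_val x]
  have := ZMod.stdAddChar_coe (N := M) (x.val : ℤ)
  rw [Int.cast_natCast] at this
  rw [this]
  congr 1
  push_cast
  ring

/-- odd conductor -/
theorem gauss_odd {M : ℕ} [NeZero M] (χ : DirichletCharacter ℂ M)
    (hχ : ∀ m : ℕ, χ (m : ZMod M) = ((jacobiSym (m : ℤ) M : ℤ) : ℂ)) :
    gaussSum χ (stdAddChar (N := M)) = gJ M :=
  gauss_range χ (fun m => jacobiSym (m : ℤ) M) hχ

/-- the product formula -/
theorem gauss_prod {q M : ℕ} [NeZero q] [NeZero M] (hc : Nat.Coprime q M)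
    [NeZero (q * M)] (χ : DirichletCharacter ℂ (q * M)) (ψ : ℤ → ℤ)
    (hper : ∀ u v : ℤ, ψ (u + q * v) = ψ u) (hmul : ∀ u v : ℤ, ψ (u * v) = ψ u * ψ v)
    (hχ : ∀ m : ℕ, χ (m : ZMod (q * M)) = ((ψ m * jacobiSym (m : ℤ) M : ℤ) : ℂ)) :
    gaussSum χ (stdAddChar (N := q * M)) = ψ M * jacobiSym (q : ℤ) M *
      (∑ a ∈ Finset.range q, (ψ a : ℂ) *
        Complex.exp (((2 * Real.pi * (a : ℝ) / q : ℝ) : ℂ) * Complex.I)) * gJ M := by
  have hq0 : (q : ℝ) ≠ 0 := by exact_mod_cast NeZero.ne q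
  have hM0 : (M : ℝ) ≠ 0 := by exact_mod_cast NeZero.ne M
  set F : ZMod q × ZMod M → ZMod (q * M) :=
    fun x => ((M * x.1.val + q * x.2.val : ℕ) : ZMod (q * M)) with hF
  have hinj : Function.Injective F := by
    rintro ⟨a, b⟩ ⟨a', b'⟩ h
    simp only [hF] at h
    have h1 := (ZMod.natCast_eq_natCast_iff _ _ _).1 h
    have h2 : M * a.val ≡ M * a'.val [MOD q] := by
      have h3 := h1.of_mul_right M
      have h4 : M * a.val + q * b.val ≡ M * a.val [MOD q] := by
        rw [Nat.modEq_iff_dvd]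
        exact ⟨-(b.val : ℤ), by push_cast; ring⟩
      have h5 : M * a'.val + q * b'.val ≡ M * a'.val [MOD q] := by
        rw [Nat.modEq_iff_dvd]
        exact ⟨-(b'.val : ℤ), by push_cast; ring⟩
      exact (h4.symm.trans h3).trans h5
    have h3 : q * b.val ≡ q * b'.val [MOD M] := by
      have h3 := h1.of_mul_left q
      have h4 : M * a.val + q * b.val ≡ q * b.val [MOD M] := by
        rw [Nat.modEq_iff_dvd]
        exact ⟨-(a.val : ℤ), by push_cast; ring⟩
      have h5 : M * a'.val + q * b'.val ≡ q * b'.val [MOD M] := by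
        rw [Nat.modEq_iff_dvd]
        exact ⟨-(a'.val : ℤ), by push_cast; ring⟩
      exact (h4.symm.trans h3).trans h5
    have h4 : a.val ≡ a'.val [MOD q] := Nat.ModEq.cancel_left_of_coprime hc h2
    have h5 : b.val ≡ b'.val [MOD M] := Nat.ModEq.cancel_left_of_coprime hc.symm h3
    have h6 : a.val = a'.val := by
      have := h4
      unfold Nat.ModEq at this
      rwa [Nat.mod_eq_of_lt (ZMod.val_lt a), Nat.mod_eq_of_lt (ZMod.val_lt a')] at this
    have h7 : b.val = b'.val := by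
      have := h5
      unfold Nat.ModEq at this
      rwa [Nat.mod_eq_of_lt (ZMod.val_lt b), Nat.mod_eq_of_lt (ZMod.val_lt b')] at this
    rw [ZMod.val_injective q h6, ZMod.val_injective M h7]
  have hbij : Function.Bijective F := by
    rw [Fintype.bijective_iff_injective_and_card]
    refine ⟨hinj, ?_⟩
    rw [Fintype.card_prod, ZMod.card, ZMod.card, ZMod.card]
  unfold gaussSum
  rw [← (Equiv.ofBijective F hbij).sum_comp, Fintype.sum_prod_type]
  have hterm : ∀ (a : ZMod q) (b : ZMod M),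
      χ ((Equiv.ofBijective F hbij) (a, b)) * stdAddChar ((Equiv.ofBijective F hbij) (a, b)) =
      (ψ M * jacobiSym (q : ℤ) M) * (((ψ a.val : ℤ) : ℂ) *
        Complex.exp (((2 * Real.pi * (a.val : ℝ) / q : ℝ) : ℂ) * Complex.I)) *
      (((jacobiSym (b.val : ℤ) M : ℤ) : ℂ) *
        Complex.exp (((2 * Real.pi * (b.val : ℝ) / M : ℝ) : ℂ) * Complex.I)) := by
    intro a b
    rw [Equiv.ofBijective_apply]
    simp only [hF]
    have e1 : ψ ((M * a.val + q * b.val : ℕ) : ℤ) = ψ M * ψ a.val := by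
      push_cast
      rw [hper, hmul]
    have e2 : jacobiSym ((M * a.val + q * b.val : ℕ) : ℤ) M =
        jacobiSym (q : ℤ) M * jacobiSym (b.val : ℤ) M := by
      rw [← jacobiSym.mul_left]
      refine jacobiSym.mod_left' ?_
      push_cast
      rw [Int.add_emod, Int.mul_emod_right, zero_add, Int.emod_emod]
    have e3 : stdAddChar (((M * a.val + q * b.val : ℕ) : ZMod (q * M))) =
        Complex.exp (((2 * Real.pi * (a.val : ℝ) / q : ℝ) : ℂ) * Complex.I) *
        Complex.exp (((2 * Real.pi * (b.val : ℝ) / M : ℝ) : ℂ) * Complex.I) := by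
      have := ZMod.stdAddChar_coe (N := q * M) ((M * a.val + q * b.val : ℕ) : ℤ)
      rw [Int.cast_natCast] at this
      rw [this, ← Complex.exp_add]
      congr 1
      have hqc : (q : ℂ) ≠ 0 := by exact_mod_cast NeZero.ne q
      have hMc : (M : ℂ) ≠ 0 := by exact_mod_cast NeZero.ne M
      push_cast
      field_simp
    rw [hχ, e1, e2, e3]
    push_cast
    ring
  rw [Finset.sum_congr rfl fun a _ => Finset.sum_congr rfl fun b _ => hterm a b]
  have hs : ∀ (n : ℕ) [NeZero n] (g : ℕ → ℂ), ∑ x : ZMod n, g x.val = ∑ r ∈ Finset.range n, g r := by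
    intro n _ g
    exact Finset.sum_nbij' (fun x : ZMod n => x.val) (fun i : ℕ => (i : ZMod n))
      (fun x _ => Finset.mem_range.2 (ZMod.val_lt x)) (fun i _ => Finset.mem_univ _)
      (fun x _ => ZMod.natCast_zmod_val x)
      (fun i hi => ZMod.val_natCast_of_lt (Finset.mem_range.1 hi)) fun x _ => rfl
  have e5 : ∀ a : ZMod q, ∑ b : ZMod M, (((ψ M : ℤ) : ℂ) * ((jacobiSym (q : ℤ) M : ℤ) : ℂ)) *
      (((ψ a.val : ℤ) : ℂ) *
        Complex.exp (((2 * Real.pi * (a.val : ℝ) / q : ℝ) : ℂ) * Complex.I)) *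
      (((jacobiSym (b.val : ℤ) M : ℤ) : ℂ) *
        Complex.exp (((2 * Real.pi * (b.val : ℝ) / M : ℝ) : ℂ) * Complex.I)) =
      (((ψ M : ℤ) : ℂ) * ((jacobiSym (q : ℤ) M : ℤ) : ℂ)) *
      (((ψ a.val : ℤ) : ℂ) *
        Complex.exp (((2 * Real.pi * (a.val : ℝ) / q : ℝ) : ℂ) * Complex.I)) * gJ M := by
    intro a
    rw [← Finset.mul_sum]
    congr 1
    exact hs M fun r => ((jacobiSym (r : ℤ) M : ℤ) : ℂ) *
      Complex.exp (((2 * Real.pi * (r : ℝ) / M : ℝ) : ℂ) * Complex.I)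
  rw [Finset.sum_congr rfl fun a _ => e5 a, ← Finset.sum_mul, ← Finset.mul_sum]
  congr 2
  exact hs q fun a => ((ψ a : ℤ) : ℂ) *
    Complex.exp (((2 * Real.pi * (a : ℝ) / q : ℝ) : ℂ) * Complex.I)

end Pool.Agent.N971.EX
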