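import Mathlib
import Pool.Agent.R946.AP.Ode
import Pool.Agent.H285R3.Str.PerCx

/-!
# The invariants of a lattice containing a lattice with index two
-/

set_option autoImplicit false

open Set Filter Topology
open scoped PeriodPair

namespace Pool.Agent.N971.EX

variable (L : PeriodPair)

/-- the derivatives of the Weierstrass function and the sums of inverse powers -/
theorem iter_wp {x : ℂ} (hx : x ∉ L.lattice) {n : ℕ} (hn : n ≠ 0) :
    iteratedDeriv n ℘[L] x = ((n + 1).factorial : ℂ) * L.sumInvPow x (n + 2) := by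
  have hopen : IsOpen (L.lattice : Set ℂ)ᶜ := L.isClosed_lattice.isOpen_compl
  obtain ⟨r, hr0, hr⟩ := Metric.isOpen_iff.1 hopen x hx
  have hr2 : (0 : ℝ) < r / 2 := half_pos hr0
  have hP : HasFPowerSeriesAt ℘[L] (L.weierstrassPSeries x) x := by
    refine (L.hasFPowerSeriesOnBall_weierstrassP x (r / 2).toNNReal
      (Real.toNNReal_pos.2 hr2) ?_).hasFPowerSeriesAt
    refine Subset.trans ?_ hr
    intro y hy
    rw [Metric.mem_closedBall, Real.coe_toNNReal _ hr2.le] at hy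
    rw [Metric.mem_ball]
    linarith
  have hA : AnalyticAt ℂ ℘[L] x := L.analyticOnNhd_weierstrassP x hx
  have h1 := congrArg (fun p => FormalMultilinearSeries.coeff p n)
    (hA.hasFPowerSeriesAt.eq_formalMultilinearSeries hP)
  have hf : ((n.factorial : ℕ) : ℂ) ≠ 0 := by exact_mod_cast n.factorial_ne_zero
  simp only [PeriodPair.weierstrassPSeries, FormalMultilinearSeries.coeff_ofScalars, if_neg hn] at h1
  have h2 : iteratedDeriv n ℘[L] x = n.factorial * ((n + 1) * L.sumInvPow x (n + 2)) := by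
    rw [← h1]
    field_simp
  rw [h2, Nat.factorial_succ]
  push_cast
  ring

/-- the values at a point of order two -/
theorem S4 {x : ℂ} (hx : x ∉ L.lattice) :
    6 * L.sumInvPow x 4 = 6 * ℘[L] x ^ 2 - L.g₂ / 2 := by
  have h1 := iter_wp L hx (n := 2) (by norm_num)
  rw [iteratedDeriv_succ, iteratedDeriv_one, L.deriv_weierstrassP,
    (Pool.Agent.R946.AP.hasDerivAt_wp'_all L hx).deriv] at h1
  rw [h1]
  norm_num [Nat.factorial]

theorem S6 {x : ℂ} (hx : x ∉ L.lattice) :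
    120 * L.sumInvPow x 6 = 12 * ℘'[L] x ^ 2 + 12 * ℘[L] x * (6 * ℘[L] x ^ 2 - L.g₂ / 2) := by
  have hopen : IsOpen (L.lattice : Set ℂ)ᶜ := L.isClosed_lattice.isOpen_compl
  have h1 := iter_wp L hx (n := 4) (by norm_num)
  have d1 : ∀ z ∈ (L.lattice : Set ℂ)ᶜ, HasDerivAt ℘[L] (℘'[L] z) z := by
    intro z hz
    have h2 := (L.analyticOnNhd_weierstrassP z hz).differentiableAt.hasDerivAt
    rwa [L.deriv_weierstrassP] at h2
  have d2 : ∀ z ∈ (L.lattice : Set ℂ)ᶜ, HasDerivAt ℘'[L] (6 * ℘[L] z ^ 2 - L.g₂ / 2) z :=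
    fun z hz => Pool.Agent.R946.AP.hasDerivAt_wp'_all L hz
  have e2 : ∀ z ∈ (L.lattice : Set ℂ)ᶜ, iteratedDeriv 2 ℘[L] z = 6 * ℘[L] z ^ 2 - L.g₂ / 2 := by
    intro z hz
    rw [iteratedDeriv_succ, iteratedDeriv_one, L.deriv_weierstrassP, (d2 z hz).deriv]
  have e3 : ∀ z ∈ (L.lattice : Set ℂ)ᶜ, iteratedDeriv 3 ℘[L] z = 12 * ℘[L] z * ℘'[L] z := by
    intro z hz
    rw [iteratedDeriv_succ]
    have h2 : iteratedDeriv 2 ℘[L] =ᶠ[𝓝 z] fun z => 6 * ℘[L] z ^ 2 - L.g₂ / 2 := by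
      filter_upwards [hopen.mem_nhds hz] with w hw
      exact e2 w hw
    rw [h2.deriv_eq]
    have h3 : HasDerivAt (fun z => 6 * ℘[L] z ^ 2 - L.g₂ / 2)
        (6 * ((2 : ℕ) * ℘[L] z ^ (2 - 1) * ℘'[L] z)) z :=
      (((d1 z hz).pow 2).const_mul 6).sub_const _
    rw [h3.deriv]
    norm_num
    ring
  have e4 : iteratedDeriv 4 ℘[L] x =
      12 * ℘'[L] x ^ 2 + 12 * ℘[L] x * (6 * ℘[L] x ^ 2 - L.g₂ / 2) := by
    rw [iteratedDeriv_succ]
    have h2 : iteratedDeriv 3 ℘[L] =ᶠ[𝓝 x] fun z => 12 * ℘[L] z * ℘'[L] z := by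
      filter_upwards [hopen.mem_nhds hx] with w hw
      exact e3 w hw
    rw [h2.deriv_eq]
    have h3 : HasDerivAt (fun z => 12 * ℘[L] z * ℘'[L] z)
        (12 * ℘'[L] x * ℘'[L] x + 12 * ℘[L] x * (6 * ℘[L] x ^ 2 - L.g₂ / 2)) x :=
      ((d1 x hx).const_mul 12).mul (d2 x hx)
    rw [h3.deriv]
    ring
  rw [e4] at h1
  rw [h1]
  norm_num [Nat.factorial]

/-- the sum over the translate -/
theorem sum_T (ω : ℂ) {k : ℕ} (hk : 2 < k) :
    HasSum ((fun w : ℂ => (w ^ k)⁻¹) ∘ (Subtype.val : {w : ℂ | w + ω ∈ L.lattice} → ℂ))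
      (L.sumInvPow ω k) := by
  have h4 := L.hasSum_sumInvPow ω hk
  let e : {w : ℂ | w + ω ∈ L.lattice} ≃ L.lattice :=
    { toFun := fun w => ⟨w.1 + ω, w.2⟩
      invFun := fun l => ⟨l.1 - ω, by
        show (l : ℂ) - ω + ω ∈ L.lattice
        rw [sub_add_cancel]
        exact l.2⟩
      left_inv := fun w => Subtype.ext (add_sub_cancel_right _ _)
      right_inv := fun l => Subtype.ext (sub_add_cancel _ _) }
  rw [← e.hasSum_iff] at h4
  have h5 : ((fun w : ℂ => (w ^ k)⁻¹) ∘ (Subtype.val : {w : ℂ | w + ω ∈ L.lattice} → ℂ)) =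
      (fun l : L.lattice => (((l : ℂ) - ω) ^ k)⁻¹) ∘ e := by
    funext w
    show ((w : ℂ) ^ k)⁻¹ = (((w : ℂ) + ω - ω) ^ k)⁻¹
    rw [add_sub_cancel_right]
  rw [h5]
  exact h4

theorem sum_L {k : ℕ} (hk : 2 < k) :
    HasSum ((fun w : ℂ => (w ^ k)⁻¹) ∘ (Subtype.val : ↥(L.lattice : Set ℂ) → ℂ)) (L.G k) := by
  have h4 := L.hasSum_sumInvPow 0 hk
  rw [L.sumInvPow_zero] at h4
  have h5 : ((fun w : ℂ => (w ^ k)⁻¹) ∘ (Subtype.val : ↥(L.lattice : Set ℂ) → ℂ)) =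
      (fun l : L.lattice => (((l : ℂ) - 0) ^ k)⁻¹) := by
    funext l
    show ((l : ℂ) ^ k)⁻¹ = (((l : ℂ) - 0) ^ k)⁻¹
    rw [sub_zero]
  rw [h5]
  exact h4

/-- the sums over the larger lattice -/
theorem G_add {L L' : PeriodPair} {ω : ℂ} (hω : ω ∉ L.lattice)
    (hL' : ∀ w : ℂ, w ∈ L'.lattice ↔ w ∈ L.lattice ∨ w + ω ∈ L.lattice)
    {k : ℕ} (hk : 2 < k) : L'.G k = L.G k + L.sumInvPow ω k := by
  have hd : Disjoint (L.lattice : Set ℂ) {w : ℂ | w + ω ∈ L.lattice} := by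
    rw [Set.disjoint_left]
    intro w h1 h3
    apply hω
    have := sub_mem (show w + ω ∈ L.lattice from h3) h1
    rwa [add_sub_cancel_left] at this
  have h6 := (sum_L L hk).add_disjoint hd (sum_T L ω hk)
  have h7 : (L.lattice : Set ℂ) ∪ {w : ℂ | w + ω ∈ L.lattice} = (L'.lattice : Set ℂ) := by
    ext w
    exact (hL' w).symm
  rw [h7] at h6
  exact (sum_L L' hk).unique h6

/-- **the invariants of the larger lattice** -/
theorem g_add {L L' : PeriodPair} {ω e : ℂ} (hω : ω ∉ L.lattice)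
    (h2 : 2 * ω ∈ L.lattice) (hL' : ∀ w : ℂ, w ∈ L'.lattice ↔ w ∈ L.lattice ∨ w + ω ∈ L.lattice)
    (he : ℘[L] ω = e) : L'.g₂ = 60 * e ^ 2 - 4 * L.g₂ ∧ L'.g₃ = 22 * L.g₃ + 14 * e * L.g₂ ∧
      4 * e ^ 3 - L.g₂ * e - L.g₃ = 0 := by
  have h0 : ℘'[L] ω = 0 := by
    have h3 := L.derivWeierstrassP_add_coe (-ω) ⟨_, h2⟩
    have e1 : -ω + 2 * ω = ω := by ring
    simp only [e1, L.derivWeierstrassP_neg] at h3
    have h4 : 2 * ℘'[L] ω = 0 := by linear_combination h3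
    exact (mul_eq_zero.1 h4).resolve_left two_ne_zero
  have h3 := S4 L hω
  have h4 := S6 L hω
  have h5 := L.derivWeierstrassP_sq ω hω
  rw [h0, he] at h4 h5
  rw [he] at h3
  have a4 := G_add hω hL' (k := 4) (by norm_num)
  have a6 := G_add hω hL' (k := 6) (by norm_num)
  have d2 : L'.g₂ = 60 * L'.G 4 := rfl
  have d3 : L'.g₃ = 140 * L'.G 6 := rfl
  have d2' : L.g₂ = 60 * L.G 4 := rfl
  have d3' : L.g₃ = 140 * L.G 6 := rfl
  refine ⟨?_, ?_, ?_⟩
  · rw [d2, a4]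
    linear_combination 10 * h3 - d2'
  · rw [d3, a6]
    linear_combination (7 / 6 : ℂ) * h4 - d3' - 21 * h5
  · linear_combination -h5

end Pool.Agent.N971.EX
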