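import Pool.Agent.N971.EX.Iso
import Pool.Agent.N971.EX.Scale
import Pool.Agent.N975.LatRh

/-!
# The lattices of the curves `17a1` and `17a2`
-/

set_option autoImplicit false

open Set Filter Topology
open scoped PeriodPair

namespace Pool.Agent.N971.EX

theorem uniq_rhomb {Op Om : ℝ} (hOp : 0 < Op) (hOm : 0 < Om) {a b c d : ℤ}
    (h : (a : ℂ) * Op + b * Om * Complex.I = c * Op + d * Om * Complex.I) : a = c ∧ b = d := by
  have h1 := congrArg Complex.re h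
  have h2 := congrArg Complex.im h
  simp at h1 h2
  constructor
  · rcases h1 with h1 | h1
    · exact h1
    · exact absurd h1 hOp.ne'
  · rcases h2 with h2 | h2
    · exact h2
    · exact absurd h2 hOm.ne'

/-- **The lattices of `17a1` and `17a2`.** -/
theorem lat17b : ∃ (L Λ : PeriodPair) (Op Om : ℝ), 0 < Op ∧ 0 < Om ∧
    L.g₂ = 11 / 4 ∧ L.g₃ = 12015 / 216 ∧
    (∀ w : ℂ, w ∈ L.lattice ↔ ∃ a b : ℤ, 2 ∣ a - b ∧ w = a * Op + b * Om * Complex.I) ∧
    Λ.g₂ = 91 / 4 ∧ Λ.g₃ = 4455 / 216 ∧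
    (∀ w : ℂ, w ∈ Λ.lattice ↔ ∃ a b : ℤ, w = a * (2 * Op : ℝ) + b * (2 * Om : ℝ) * Complex.I) := by
  obtain ⟨L, Op, Om, hOp, hOm, g2, g3, hL⟩ := Pool.Agent.N975.LatRh.lat17
  refine ⟨L, ?_⟩
  have hv : ((Om : ℂ) * Complex.I).im ≠ 0 := by simpa using hOm.ne'
  have hv2 : (((2 * Om : ℝ) : ℂ) * Complex.I).im ≠ 0 := by simpa using hOm.ne'
  set L' := mkL Op ((Om : ℂ) * Complex.I) hOp.ne' hv with hL'
  set Λ := mkL (2 * Op) (((2 * Om : ℝ) : ℂ) * Complex.I) (by positivity) hv2 with hΛ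
  have mL' : ∀ w : ℂ, w ∈ L'.lattice ↔ ∃ a b : ℤ, w = a * Op + b * Om * Complex.I := by
    intro w
    rw [PeriodPair.mem_lattice]
    constructor
    · rintro ⟨a, b, rfl⟩
      exact ⟨a, b, by simp only [hL', mkL]; ring⟩
    · rintro ⟨a, b, rfl⟩
      exact ⟨a, b, by simp only [hL', mkL]; ring⟩
  have mΛ : ∀ w : ℂ, w ∈ Λ.lattice ↔
      ∃ a b : ℤ, w = a * (2 * Op : ℝ) + b * (2 * Om : ℝ) * Complex.I := by
    intro w
    rw [PeriodPair.mem_lattice]
    constructor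
    · rintro ⟨a, b, rfl⟩
      exact ⟨a, b, by simp only [hΛ, mkL]; ring⟩
    · rintro ⟨a, b, rfl⟩
      exact ⟨a, b, by simp only [hΛ, mkL]; ring⟩
  -- the point of order two
  have hω : (Op : ℂ) ∉ L.lattice := by
    intro h
    obtain ⟨a, b, hab, h1⟩ := (hL _).1 h
    have h2 := uniq_rhomb hOp hOm (a := 1) (b := 0) (c := a) (d := b) (by
      rw [← h1]; push_cast; ring)
    omega
  have h2ω : 2 * (Op : ℂ) ∈ L.lattice := (hL _).2 ⟨2, 0, by norm_num, by push_cast; ring⟩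
  have hLL : ∀ w : ℂ, w ∈ L'.lattice ↔ w ∈ L.lattice ∨ w + Op ∈ L.lattice := by
    intro w
    rw [mL', hL, hL]
    constructor
    · rintro ⟨a, b, rfl⟩
      by_cases h : 2 ∣ a - b
      · exact Or.inl ⟨a, b, h, rfl⟩
      · right
        exact ⟨a + 1, b, by omega, by push_cast; ring⟩
    · rintro (⟨a, b, -, rfl⟩ | ⟨a, b, -, h⟩)
      · exact ⟨a, b, rfl⟩
      · refine ⟨a - 1, b, ?_⟩
        push_cast
        linear_combination h
  have hconj : ∀ l ∈ L.lattice, (starRingEnd ℂ) l ∈ L.lattice := by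
    intro l hl
    obtain ⟨a, b, hab, rfl⟩ := (hL l).1 hl
    refine (hL _).2 ⟨a, -b, by omega, ?_⟩
    simp only [map_add, map_mul, Complex.conj_ofReal, Complex.conj_I, map_intCast]
    push_cast
    ring
  have hreal : ℘[L] (Op : ℂ) = ((℘[L] (Op : ℂ)).re : ℂ) := by
    have h1 := Pool.Agent.H285R3.Str.P_conj L hconj (Op : ℂ)
    rw [Complex.conj_ofReal] at h1
    exact (Complex.conj_eq_iff_re.1 h1.symm).symm
  obtain ⟨k2, k3, k0⟩ := g_add hω h2ω hLL hreal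
  set e : ℝ := (℘[L] (Op : ℂ)).re with he
  have he' : e = 5 / 2 := by
    rw [g2, g3] at k0
    have h1 : 4 * e ^ 3 - 11 / 4 * e - 12015 / 216 = 0 := by
      apply Complex.ofReal_injective
      push_cast
      exact k0
    have h2 : (e - 5 / 2) * (4 * (e ^ 2 + 5 / 2 * e + 89 / 16)) = 0 := by linear_combination h1
    rcases mul_eq_zero.1 h2 with h3 | h3
    · linarith
    · nlinarith [sq_nonneg (e + 5 / 4)]
  rw [he', g2] at k2
  rw [he', g2, g3] at k3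
  -- the scaling
  have hsc : ∀ k : ℕ, 2 < k → Λ.G k = (2 ^ k)⁻¹ * L'.G k := by
    intro k hk
    have h1 : ∀ w : ℂ, w ∈ Λ.lattice ↔ ∃ l ∈ L'.lattice, w = 2 * l := by
      intro w
      rw [mΛ]
      constructor
      · rintro ⟨a, b, rfl⟩
        exact ⟨a * Op + b * Om * Complex.I, (mL' _).2 ⟨a, b, rfl⟩, by push_cast; ring⟩
      · rintro ⟨l, hl, rfl⟩
        obtain ⟨a, b, rfl⟩ := (mL' _).1 hl
        exact ⟨a, b, by push_cast; ring⟩
    let E : L'.lattice ≃ Λ.lattice := Equiv.ofBijective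
      (fun l => ⟨2 * l, (h1 _).2 ⟨l, l.2, rfl⟩⟩) (by
        constructor
        · intro x y h
          have h2 : 2 * (x : ℂ) = 2 * (y : ℂ) := congrArg Subtype.val h
          exact Subtype.ext (mul_left_cancel₀ two_ne_zero h2)
        · intro w
          obtain ⟨l, hl, h⟩ := (h1 _).1 w.2
          exact ⟨⟨l, hl⟩, Subtype.ext h.symm⟩)
    rw [PeriodPair.G, PeriodPair.G, ← E.tsum_eq, ← tsum_mul_left]
    refine tsum_congr fun l => ?_
    have h2 : ((E l : Λ.lattice) : ℂ) = 2 * l := rfl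
    rw [h2, mul_pow, mul_inv]
  have s2 : Λ.g₂ = (2 ^ 4)⁻¹ * L'.g₂ := by
    rw [PeriodPair.g₂, PeriodPair.g₂, hsc 4 (by norm_num)]
    ring
  have s3 : Λ.g₃ = (2 ^ 6)⁻¹ * L'.g₃ := by
    rw [PeriodPair.g₃, PeriodPair.g₃, hsc 6 (by norm_num)]
    ring
  refine ⟨Λ, Op, Om, hOp, hOm, g2, g3, hL, ?_, ?_, mΛ⟩
  · rw [s2, k2]; push_cast; norm_num
  · rw [s3, k3]; push_cast; norm_num

end Pool.Agent.N971.EX
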