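import Pool.Agent.N809.M17.Mod17
import Pool.Agent.N975.S17.Fin
import Pool.Agent.N971.EX.Scale

/-!
# The exact scale of the odd symbol of level `17`
-/

set_option autoImplicit false
set_option linter.unusedSectionVars false

open UpperHalfPlane MatrixGroups CongruenceSubgroup Filter Topology MeasureTheory Set

namespace Pool.Agent.N971.EX

open Pool.Agent.N809.M17 (f17 X0 eigen17 param17 tors0)
open Pool.Agent.N975.S17
open Pool.Agent.N972.P17
open Pool.Agent.N974.Gen

/-- the correction vanishes exactly for small denominators -/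
theorem sg_zero_iff {x M : ℤ} (hM : 0 < M) (h : IsCoprime x M) :
    (x % M = 0 ∨ 2 * (x % M) = M) ↔ M ∣ 2 := by
  have e : x % M = x - M * (x / M) := by
    have := Int.emod_add_mul_ediv x M
    linarith
  constructor
  · intro h1
    have h2 : M ∣ x * 2 := by
      rcases h1 with h1 | h1
      · exact (Int.dvd_of_emod_eq_zero h1).mul_right 2
      · refine ⟨2 * (x / M) + 1, ?_⟩
        linear_combination h1 - 2 * e
    exact h.symm.dvd_of_dvd_mul_left h2
  · intro h1
    have h2 : M ≤ 2 := Int.le_of_dvd (by norm_num) h1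
    have h3 : M = 1 ∨ M = 2 := by omega
    rcases h3 with rfl | rfl
    · left; omega
    · right
      have h4 : x % 2 ≠ 0 := by
        intro h5
        obtain ⟨u, v, huv⟩ := h
        obtain ⟨k, hk⟩ := Int.dvd_of_emod_eq_zero h5
        rw [hk] at huv
        have : (2 : ℤ) * (u * k + v) = 1 := by linear_combination huv
        omega
      omega

theorem sg_par {x y M : ℤ} (hM : 0 < M) (hx : IsCoprime x M) (hy : IsCoprime y M) :
    ∃ k, sg x M + sg y M = 2 * k := by
  unfold sg
  by_cases h : M ∣ 2
  · rw [if_pos ((sg_zero_iff hM hx).2 h), if_pos ((sg_zero_iff hM hy).2 h)]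
    exact ⟨0, by norm_num⟩
  · rw [if_neg (fun h1 => h ((sg_zero_iff hM hx).1 h1)),
      if_neg (fun h1 => h ((sg_zero_iff hM hy).1 h1))]
    split_ifs
    · exact ⟨1, by norm_num⟩
    · exact ⟨0, by norm_num⟩
    · exact ⟨0, by norm_num⟩
    · exact ⟨-1, by norm_num⟩

/-- the symbol takes even values -/
theorem GG_even {a b c d : ℤ} (h : a * d - 17 * (b * c) = 1) : ∃ k, GG b c d = 2 * k := by
  have hd : d ≠ 0 := by
    rintro rfl
    have : (17 : ℤ) * (b * c) = -1 := by linarith
    omega
  have hb : IsCoprime b d := ⟨-(17 * c), a, by linear_combination h⟩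
  have hc : IsCoprime c d := ⟨-(17 * b), a, by linear_combination h⟩
  unfold GG sg'
  by_cases h0 : 0 < d
  · rw [if_pos h0, if_pos h0]
    obtain ⟨k, hk⟩ := sg_par h0 hb hc
    exact ⟨Fp b d + k, by linear_combination hk⟩
  · have h0' : 0 < -d := by omega
    rw [if_neg h0, if_neg h0]
    obtain ⟨k, hk⟩ := sg_par h0' hb.neg_neg hc.neg_neg
    exact ⟨Fp b d + k, by linear_combination hk⟩

/-- the imaginary parts of the periods are multiples of the one at `1 / 3` -/
theorem im_period17 {a b c d : ℤ} (hdet : a * d - b * ((17 : ℤ) * c) = 1) {p : ℂ}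
    (hp : ∀ z : ℂ, 0 < z.im → F f17 ((a * z + b) / (((17 : ℕ) : ℂ) * c * z + d)) = F f17 z + p) :
    ∃ m : ℤ, p.im = m * (II f17 (1 / 3)).im := by
  have hd : d ≠ 0 := by
    rintro rfl
    have : (17 : ℤ) * (b * c) = -1 := by linarith
    omega
  have h0 := II_zero_im f17 eigen17.real
  have h1 := II_gamma f17 (N := 17) (by exact_mod_cast hdet) hp 0 (by
    rw [mul_zero, zero_add]
    exact_mod_cast hd)
  have h2 : (II f17 ((b : ℚ) / d)).im = p.im := by
    have h3 := congrArg Complex.im h1
    rw [Complex.add_im, h0, zero_add] at h3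
    rw [← h3]
    congr 2
    push_cast
    ring
  have h3 := symb_eq (symb17_im eigen17) (a := a) (b := b) (c := c) (d := d)
    (by linear_combination hdet)
  obtain ⟨k, hk⟩ := GG_even (a := a) (b := b) (c := c) (d := d) (by linear_combination hdet)
  refine ⟨k, ?_⟩
  rw [hk] at h3
  push_cast at h3
  rw [← h2]
  linarith

theorem im_third (L : PeriodPair) (Op Om : ℝ) (hOp : 0 < Op) (hOm : 0 < Om)
    (g2 : L.g₂ = 11 / 4) (g3 : L.g₃ = 12015 / 216)
    (hL : ∀ w : ℂ, w ∈ L.lattice ↔ ∃ a b : ℤ, 2 ∣ a - b ∧ w = a * Op + b * Om * Complex.I) :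
    (II f17 (1 / 3)).im = Om ∨ (II f17 (1 / 3)).im = -Om := by
  have hP := param17 L g2 g3
  have h0 := II_zero_im f17 eigen17.real
  obtain ⟨t1, -, -⟩ := tors0 L g2 g3
  have hcop : ∀ r : ℚ, ¬ ((17 : ℕ) : ℤ) ∣ r.den → II f17 r - II f17 0 ∈ L.lattice := by
    intro r hr
    refine II_cop hP r ?_
    rw [Nat.Prime.coprime_iff_not_dvd (by norm_num)]
    intro h
    exact hr (by exact_mod_cast h)
  obtain ⟨k, hk⟩ : ∃ k : ℤ, (II f17 (1 / 3)).im = k * Om := by
    obtain ⟨a, b, -, hab⟩ := (hL _).1 (hcop (1 / 3) (by norm_num))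
    refine ⟨b, ?_⟩
    have h1 := congrArg Complex.im hab
    rw [Complex.sub_im, h0, sub_zero] at h1
    rw [h1]
    simp
  set v : ℂ := Op + Om * Complex.I with hv
  have hvim : v.im = Om := by rw [hv]; simp
  have key := scale_im hP (fun r hr hm => by
      apply t1
      have := sub_mem hm (hcop r hr)
      rwa [sub_sub_cancel] at this) (Op := 2 * Op) (v := v) (by positivity)
      (by rw [hvim]; exact hOm.ne') (fun w => by
        rw [hL]
        constructor
        · rintro ⟨a, b, ⟨j, hj⟩, rfl⟩
          refine ⟨j, b, ?_⟩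
          have e : (a : ℂ) = b + 2 * j := by
            have : a = b + 2 * j := by linarith
            exact_mod_cast this
          rw [e, hv]
          push_cast
          ring
        · rintro ⟨a, b, rfl⟩
          refine ⟨2 * a + b, b, ⟨a, by ring⟩, ?_⟩
          rw [hv]
          push_cast
          ring) k (fun a b c d hdet p hp => by
        obtain ⟨m, hm⟩ := im_period17 (by exact_mod_cast hdet) hp
        exact ⟨m, by rw [hm, hk, hvim]⟩)
  rcases key with h | h
  · left; rw [hk, h]; push_cast; ring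
  · right; rw [hk, h]; push_cast; ring

end Pool.Agent.N971.EX
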