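import Pool.Agent.N971.EX.S17
import Pool.Agent.TH940.Cen
import Pool.Agent.W612.CY.COEF

/-!
# The sign of the odd symbol of level `17`
-/

set_option autoImplicit false
set_option linter.unusedSectionVars false

open UpperHalfPlane MatrixGroups CongruenceSubgroup Filter Topology MeasureTheory Set

namespace Pool.Agent.N971.EX

open Pool.Agent.N974.Gen
open Pool.Agent.N809.M17 (f17 X0 eigen17 param17 tors0)
open Pool.Agent.W97.MT (const_of_deriv ap affCount)

section gen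

variable {N : ℕ} [NeZero N] (f : CuspForm (Gamma0 N : Subgroup (GL (Fin 2) ℝ)) 2)

/-- the two primitives agree -/
theorem prim_eq {z : ℂ} (hz : 0 < z.im) : TH940.prim f z = F f z := by
  obtain ⟨C, hC⟩ := const_of_deriv (g := fun z => TH940.prim f z - F f z) fun z hz => by
    have e1 := TH940.prim_deriv f ⟨z, hz⟩
    have e2 := e1.sub (F_deriv f hz)
    refine e2.congr_deriv ?_
    have e3 : f ⟨z, hz⟩ = ff f z := (ff_H f ⟨z, hz⟩).symm
    rw [e3]
    ring
  have h1 := TH940.prim_line f 0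
  have h2 := F_line_tendsto f 0
  have h3 : Tendsto (fun T : ℝ => TH940.prim f (((0 : ℝ) : ℂ) + (T : ℂ) * Complex.I)
      - F f (0 + (T : ℂ) * Complex.I)) atTop (𝓝 (0 - 0)) := h1.sub h2
  have h4 : C = 0 := by
    refine tendsto_nhds_unique (f := fun _ : ℝ => C) (l := atTop) tendsto_const_nhds ?_
    rw [sub_zero] at h3
    refine h3.congr' ?_
    filter_upwards [eventually_gt_atTop (0 : ℝ)] with T hT
    have := hC (0 + (T : ℂ) * Complex.I) (by simpa using hT)
    rw [Complex.ofReal_zero]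
    exact this
  have h5 := hC z hz
  rw [h4] at h5
  exact sub_eq_zero.1 h5

end gen

theorem card_div_le (n : ℕ) : (n.divisors.card : ℝ) ≤ 2 * Real.sqrt n := by
  have h1 : n.divisors ⊆ (Finset.Icc 1 (Nat.sqrt n)) ∪
      (Finset.Icc 1 (Nat.sqrt n)).image (fun d => n / d) := by
    intro d hd
    rw [Nat.mem_divisors] at hd
    obtain ⟨⟨e, he⟩, hn⟩ := hd
    have hd0 : 0 < d := Nat.pos_of_ne_zero (by rintro rfl; simp at he; exact hn he)
    have he0 : 0 < e := Nat.pos_of_ne_zero (by rintro rfl; simp at he; exact hn he)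
    rw [Finset.mem_union]
    by_cases h : d ≤ Nat.sqrt n
    · left; rw [Finset.mem_Icc]; exact ⟨hd0, h⟩
    · right
      rw [Finset.mem_image]
      refine ⟨e, ?_, ?_⟩
      · rw [Finset.mem_Icc]
        refine ⟨he0, ?_⟩
        by_contra h2
        have h3 : Nat.sqrt n + 1 ≤ d := by omega
        have h4 : Nat.sqrt n + 1 ≤ e := by omega
        have h5 : (Nat.sqrt n + 1) * (Nat.sqrt n + 1) ≤ d * e := Nat.mul_le_mul h3 h4
        have h6 := Nat.lt_succ_sqrt n
        rw [← he] at h5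
        simp only [Nat.succ_eq_add_one] at h6
        omega
      · rw [he]; exact Nat.mul_div_cancel d he0
  have h2 : n.divisors.card ≤ Nat.sqrt n + Nat.sqrt n := by
    calc n.divisors.card ≤ _ := Finset.card_le_card h1
      _ ≤ (Finset.Icc 1 (Nat.sqrt n)).card +
          ((Finset.Icc 1 (Nat.sqrt n)).image (fun d => n / d)).card := Finset.card_union_le _ _
      _ ≤ Nat.sqrt n + Nat.sqrt n := by
          have := Finset.card_image_le (s := Finset.Icc 1 (Nat.sqrt n)) (f := fun d => n / d)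
          simp at this ⊢
          omega
  have h3 : ((Nat.sqrt n : ℕ) : ℝ) ≤ Real.sqrt n := Real.nat_sqrt_le_real_sqrt
  have h4 : (n.divisors.card : ℝ) ≤ Nat.sqrt n + Nat.sqrt n := by exact_mod_cast h2
  linarith

/-- the trivial bound for the coefficients -/
theorem cf_le {N : ℕ} [NeZero N] {f : CuspForm (Gamma0 N : Subgroup (GL (Fin 2) ℝ)) 2}
    {a : ℕ → ℤ} (h : Eigen f a) (n : ℕ) (hn : 1 ≤ n) : |(cf f n).re| ≤ 2 * n := by
  obtain ⟨m, hm⟩ := W612.CY.t_coef N _ h.coef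
  have h2 := hm.cle n hn
  have h3 : Real.sqrt n * Real.sqrt n = n := Real.mul_self_sqrt (Nat.cast_nonneg n)
  have h4 := card_div_le n
  have h5 := Real.sqrt_nonneg (n : ℝ)
  calc |(cf f n).re| ≤ n.divisors.card * Real.sqrt n := h2
    _ ≤ (2 * Real.sqrt n) * Real.sqrt n := by gcongr
    _ = 2 * n := by rw [mul_assoc, h3]

/-- `exp (- 2 π / 17)` -/
noncomputable def rr17 : ℝ := Real.exp (-(2 * Real.pi / 17))

theorem rr_pos : 0 < rr17 := Real.exp_pos _

theorem rr_le : rr17 ≤ 0.6956 := by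
  have h1 : (1.4378 : ℝ) ≤ Real.exp (2 * Real.pi / 17) := by
    have hpi := Real.pi_gt_d4
    have hx : (0.36958 : ℝ) ≤ 2 * Real.pi / 17 := by linarith
    have h4 := Real.quadratic_le_exp_of_nonneg (x := 2 * Real.pi / 17) (by positivity)
    have h5 : (0.36958 : ℝ) ^ 2 ≤ (2 * Real.pi / 17) ^ 2 := pow_le_pow_left₀ (by norm_num) hx 2
    norm_num at h5 ⊢
    linarith
  unfold rr17
  rw [Real.exp_neg]
  rw [inv_le_comm₀ (Real.exp_pos _) (by norm_num)]
  refine le_trans ?_ h1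
  norm_num

theorem exp_17 (n : ℕ) (x : ℝ) : (Complex.exp (2 * Real.pi * Complex.I * n *
    (((x : ℂ) + Complex.I) / 17))).im = rr17 ^ n * Real.sin (2 * Real.pi * n * x / 17) := by
  have e : (2 * Real.pi * Complex.I * n * (((x : ℂ) + Complex.I) / 17) : ℂ) =
      ((n * (-(2 * Real.pi / 17)) : ℝ) : ℂ) + ((2 * Real.pi * n * x / 17 : ℝ) : ℂ) * Complex.I := by
    push_cast
    linear_combination (2 * Real.pi * n / 17 : ℂ) * Complex.I_sq
  rw [e, Complex.exp_add, ← Complex.ofReal_exp, Complex.im_ofReal_mul, Complex.exp_ofReal_mul_I_im]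
  congr 1
  unfold rr17
  rw [← Real.exp_nat_mul]

theorem norm_17 (n : ℕ) (x : ℝ) : ‖Complex.exp (2 * Real.pi * Complex.I * n *
    (((x : ℂ) + Complex.I) / 17))‖ = rr17 ^ n := by
  have e : (2 * Real.pi * Complex.I * n * (((x : ℂ) + Complex.I) / 17) : ℂ) =
      ((n * (-(2 * Real.pi / 17)) : ℝ) : ℂ) + ((2 * Real.pi * n * x / 17 : ℝ) : ℂ) * Complex.I := by
    push_cast
    linear_combination (2 * Real.pi * n / 17 : ℂ) * Complex.I_sq
  rw [e, Complex.exp_add, ← Complex.ofReal_exp, norm_mul, Complex.norm_exp_ofReal_mul_I, mul_one,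
    Complex.norm_real, Real.norm_eq_abs, abs_of_pos (Real.exp_pos _)]
  unfold rr17
  rw [← Real.exp_nat_mul]

/-- the imaginary part of the primitive -/
theorem F_im (x : ℝ) : HasSum (fun n : ℕ => (cf f17 n).re / n *
    (rr17 ^ n * Real.sin (2 * Real.pi * n * x / 17)))
    (F f17 (((x : ℂ) + Complex.I) / 17)).im := by
  have hz : 0 < (((x : ℂ) + Complex.I) / 17).im := by
    have : (((x : ℂ) + Complex.I) / 17).im = 1 / 17 := by
      rw [Complex.div_im]
      simp [Complex.normSq]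
    rw [this]; norm_num
  have hr0 := rr_pos
  have hr1 : rr17 < 1 := lt_of_le_of_lt rr_le (by norm_num)
  rw [← prim_eq f17 hz]
  have hs : Summable (fun n : ℕ => (qExpansion 1 f17).coeff n / n *
      Complex.exp (2 * Real.pi * Complex.I * n * (((x : ℂ) + Complex.I) / 17))) := by
    refine Summable.of_norm_bounded (g := fun n : ℕ => 2 * rr17 ^ n)
      ((summable_geometric_of_lt_one hr0.le hr1).mul_left 2) fun n => ?_
    rcases Nat.eq_zero_or_pos n with rfl | hn
    · simp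
    · rw [norm_mul, norm_17, norm_div, Complex.norm_natCast]
      have h1 : ‖(qExpansion 1 f17).coeff n‖ = |(cf f17 n).re| := by
        have h2 := cf_re eigen17 n
        conv_lhs => rw [show (qExpansion 1 f17).coeff n = cf f17 n from rfl, h2, Complex.norm_real,
          Real.norm_eq_abs]
      have h2 := cf_le eigen17 n hn
      have hn0 : (0 : ℝ) < n := by exact_mod_cast hn
      rw [h1]
      have h3 : |(cf f17 n).re| / n ≤ 2 := by
        rw [div_le_iff₀ hn0]
        exact h2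
      have h4 : (0 : ℝ) ≤ rr17 ^ n := pow_nonneg hr0.le n
      nlinarith
  have h1 := ((Complex.hasSum_iff _ _).1 hs.hasSum).2
  unfold TH940.prim
  refine h1.congr_fun ?_ |> fun h => h
  intro n
  have h2 := cf_re eigen17 n
  rw [show (qExpansion 1 f17).coeff n = cf f17 n from rfl, h2]
  have e : (((cf f17 n).re : ℂ) / n : ℂ) = (((cf f17 n).re / n : ℝ) : ℂ) := by push_cast; rfl
  rw [e, Complex.im_ofReal_mul, exp_17]
  simp

theorem ap17_5 : ap E17 5 = -2 := by
  have h : affCount E17 5 = 7 := by rw [aff_eq]; decide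
  unfold ap
  rw [h]
  norm_num

theorem coefs : (cf f17 1).re = 1 ∧ (cf f17 2).re = -1 ∧ (cf f17 3).re = 0 ∧ (cf f17 4).re = -1 ∧
    (cf f17 5).re = -2 ∧ (cf f17 6).re = 0 := by
  have h1 := cf_one eigen17
  have h2 := cf_prime eigen17 2 Nat.prime_two
  have h3 := cf_prime eigen17 3 Nat.prime_three
  have h5 := cf_prime eigen17 5 (by norm_num)
  have h4 := cf_pow eigen17 2 0 Nat.prime_two
  have h6 := cf_mul eigen17 2 3 (by norm_num)
  simp only [ap17_2, ap17_3, ap17_5] at h2 h3 h5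
  have h17 : ¬ (2 ∣ 17) := by norm_num
  rw [if_neg h17, pow_zero, zero_add, pow_one, h2, h1] at h4
  rw [h2, h3] at h6
  norm_num at h4 h6
  refine ⟨?_, ?_, ?_, ?_, ?_, ?_⟩
  · rw [h1]; simp
  · rw [h2]; simp
  · rw [h3]; simp
  · rw [h4]; norm_num
  · rw [h5]; simp
  · rw [h6]; simp

/-- the sum of the sines -/
noncomputable def us (n : ℕ) : ℝ :=
  Real.sin (2 * Real.pi * n * 6 / 17) - Real.sin (2 * Real.pi * n * (-3) / 17)

theorem us_le (n : ℕ) : |us n| ≤ 2 := by
  unfold us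
  have h1 := Real.abs_sin_le_one (2 * Real.pi * n * 6 / 17)
  have h2 := Real.abs_sin_le_one (2 * Real.pi * n * (-3) / 17)
  rw [abs_le] at *
  constructor <;> linarith [h1.1, h1.2, h2.1, h2.2]

theorem us1 : 1.573 ≤ us 1 := by
  have hpi := Real.pi_pos
  unfold us
  have e1 : 2 * Real.pi * ((1 : ℕ) : ℝ) * 6 / 17 = Real.pi - 5 * Real.pi / 17 := by
    push_cast; ring
  have e2 : 2 * Real.pi * ((1 : ℕ) : ℝ) * (-3) / 17 = -(6 * Real.pi / 17) := by push_cast; ring
  rw [e1, e2, Real.sin_pi_sub, Real.sin_neg, sub_neg_eq_add]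
  have h1 : Real.sin (Real.pi / 4) ≤ Real.sin (5 * Real.pi / 17) :=
    Real.sin_le_sin_of_le_of_le_pi_div_two (by linarith) (by linarith) (by linarith)
  have h2 : Real.sin (Real.pi / 3) ≤ Real.sin (6 * Real.pi / 17) :=
    Real.sin_le_sin_of_le_of_le_pi_div_two (by linarith) (by linarith) (by linarith)
  rw [Real.sin_pi_div_four] at h1
  rw [Real.sin_pi_div_three] at h2
  have h3 : (1.4142 : ℝ) ≤ √2 := Real.le_sqrt_of_sq_le (by norm_num)
  have h4 : (1.732 : ℝ) ≤ √3 := Real.le_sqrt_of_sq_le (by norm_num)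
  linarith

theorem us2 : us 2 ≤ 0 := by
  have hpi := Real.pi_pos
  unfold us
  have e1 : 2 * Real.pi * ((2 : ℕ) : ℝ) * 6 / 17 = 7 * Real.pi / 17 + Real.pi := by
    push_cast; ring
  have e2 : 2 * Real.pi * ((2 : ℕ) : ℝ) * (-3) / 17 = -(Real.pi - 5 * Real.pi / 17) := by
    push_cast; ring
  rw [e1, e2, Real.sin_add_pi, Real.sin_neg, Real.sin_pi_sub]
  have h1 : Real.sin (5 * Real.pi / 17) ≤ Real.sin (7 * Real.pi / 17) :=
    Real.sin_le_sin_of_le_of_le_pi_div_two (by linarith) (by linarith) (by linarith)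
  linarith

theorem us4 : us 4 ≤ 0 := by
  have hpi := Real.pi_pos
  unfold us
  have e1 : 2 * Real.pi * ((4 : ℕ) : ℝ) * 6 / 17 = (Real.pi - 3 * Real.pi / 17) + 2 * Real.pi := by
    push_cast; ring
  have e2 : 2 * Real.pi * ((4 : ℕ) : ℝ) * (-3) / 17 = -(7 * Real.pi / 17 + Real.pi) := by
    push_cast; ring
  rw [e1, e2, Real.sin_add_two_pi, Real.sin_pi_sub, Real.sin_neg, Real.sin_add_pi]
  have h1 : Real.sin (3 * Real.pi / 17) ≤ Real.sin (7 * Real.pi / 17) :=
    Real.sin_le_sin_of_le_of_le_pi_div_two (by linarith) (by linarith) (by linarith)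
  linarith

theorem us5 : us 5 ≤ 0 := by
  have hpi := Real.pi_pos
  unfold us
  have e1 : 2 * Real.pi * ((5 : ℕ) : ℝ) * 6 / 17 = (9 * Real.pi / 17 + Real.pi) + 2 * Real.pi := by
    push_cast; ring
  have e2 : 2 * Real.pi * ((5 : ℕ) : ℝ) * (-3) / 17 = -(13 * Real.pi / 17 + Real.pi) := by
    push_cast; ring
  rw [e1, e2, Real.sin_add_two_pi, Real.sin_add_pi, Real.sin_neg, Real.sin_add_pi]
  have h1 : 0 ≤ Real.sin (9 * Real.pi / 17) := Real.sin_nonneg_of_nonneg_of_le_pi (by positivity)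
    (by linarith)
  have h2 : 0 ≤ Real.sin (13 * Real.pi / 17) := Real.sin_nonneg_of_nonneg_of_le_pi (by positivity)
    (by linarith)
  linarith

/-- the period between `0` and `1 / 3` is positive -/
theorem im_pos_aux : 0 < (F f17 ((((6 : ℝ) : ℂ) + Complex.I) / 17)).im -
    (F f17 ((((-3 : ℝ) : ℂ) + Complex.I) / 17)).im := by
  have hr0 := rr_pos
  have hrl := rr_le
  have hr1 : rr17 < 1 := lt_of_le_of_lt rr_le (by norm_num)
  have h1 := (F_im 6).sub (F_im (-3))
  set S := (F f17 ((((6 : ℝ) : ℂ) + Complex.I) / 17)).im -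
    (F f17 ((((-3 : ℝ) : ℂ) + Complex.I) / 17)).im with hS
  have h2 : HasSum (fun n : ℕ => (cf f17 n).re / n * (rr17 ^ n * us n)) S := by
    refine h1.congr_fun ?_ |> fun h => h
    intro n
    unfold us
    ring
  set T : ℕ → ℝ := fun n => (cf f17 n).re / n * (rr17 ^ n * us n) with hT
  have h3 := h2.summable.sum_add_tsum_nat_add 7
  rw [h2.tsum_eq] at h3
  obtain ⟨c1, c2, c3, c4, c5, c6⟩ := coefs
  have hfin : rr17 * 1.573 ≤ ∑ i ∈ Finset.range 7, T i := by
    simp only [Finset.sum_range_succ, Finset.sum_range_zero, hT, c1, c2, c3, c4, c5, c6]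
    have p2 : 0 ≤ rr17 ^ 2 * (-us 2) := mul_nonneg (by positivity) (by linarith [us2])
    have p4 : 0 ≤ rr17 ^ 4 * (-us 4) := mul_nonneg (by positivity) (by linarith [us4])
    have p5 : 0 ≤ rr17 ^ 5 * (-us 5) := mul_nonneg (by positivity) (by linarith [us5])
    have p1 : rr17 * 1.573 ≤ rr17 * us 1 := mul_le_mul_of_nonneg_left us1 hr0.le
    push_cast
    norm_num
    linarith
  have htail : |∑' i : ℕ, T (i + 7)| ≤ 4 * rr17 ^ 7 / (1 - rr17) := by
    have hg : HasSum (fun i : ℕ => 4 * rr17 ^ 7 * rr17 ^ i) (4 * rr17 ^ 7 * (1 - rr17)⁻¹) :=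
      (hasSum_geometric_of_lt_one hr0.le hr1).mul_left _
    rw [div_eq_mul_inv, ← Real.norm_eq_abs]
    refine tsum_of_norm_bounded hg fun i => ?_
    rw [Real.norm_eq_abs]
    simp only [hT]
    rw [abs_mul, abs_mul, abs_div, Nat.abs_cast, abs_of_pos (pow_pos hr0 (i + 7))]
    have hn0 : (0 : ℝ) < ((i + 7 : ℕ) : ℝ) := by positivity
    have k1 : |(cf f17 (i + 7)).re| / ((i + 7 : ℕ) : ℝ) ≤ 2 := by
      rw [div_le_iff₀ hn0]
      exact cf_le eigen17 (i + 7) (by omega)
    have k2 := us_le (i + 7)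
    have k3 : 0 ≤ rr17 ^ (i + 7) := by positivity
    calc |(cf f17 (i + 7)).re| / ((i + 7 : ℕ) : ℝ) * (rr17 ^ (i + 7) * |us (i + 7)|)
        ≤ 2 * (rr17 ^ (i + 7) * 2) := by gcongr
      _ = 4 * rr17 ^ 7 * rr17 ^ i := by rw [pow_add]; ring
  have h4 : 4 * rr17 ^ 7 / (1 - rr17) < rr17 * 1.573 := by
    rw [div_lt_iff₀ (by linarith)]
    have h5 : rr17 ^ 6 ≤ 0.6956 ^ 6 := pow_le_pow_left₀ hr0.le hrl 6
    have h6 : 4 * rr17 ^ 6 < 1.573 * (1 - rr17) := by
      norm_num at h5 hrl ⊢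
      linarith
    have h7 : rr17 * (4 * rr17 ^ 6) < rr17 * (1.573 * (1 - rr17)) :=
      mul_lt_mul_of_pos_left h6 hr0
    calc 4 * rr17 ^ 7 = rr17 * (4 * rr17 ^ 6) := by ring
      _ < rr17 * (1.573 * (1 - rr17)) := h7
      _ = _ := by ring
  have h5 := (abs_le.1 htail).1
  linarith

theorem im_third_pos : 0 < (II f17 (1 / 3)).im := by
  have h0 := II_zero_im f17 eigen17.real
  have hdet : (6 : ℤ) * 3 - 1 * (((17 : ℕ) : ℤ) * 1) = 1 := by norm_num
  obtain ⟨p, hp⟩ := F_gamma f17 hdet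
  have h1 := II_gamma f17 hdet hp 0 (by norm_num)
  have h2 : (II f17 (1 / 3)).im = p.im := by
    have h3 := congrArg Complex.im h1
    rw [Complex.add_im, h0, zero_add] at h3
    rw [← h3]
    congr 2
    norm_num
  rw [h2]
  have hz : 0 < ((((-3 : ℝ) : ℂ) + Complex.I) / 17).im := by
    have : ((((-3 : ℝ) : ℂ) + Complex.I) / 17).im = 1 / 17 := by
      rw [Complex.div_im]
      simp [Complex.normSq]
    rw [this]; norm_num
  have h4 := hp _ hz
  have h5 : (((6 : ℤ) : ℂ) * ((((-3 : ℝ) : ℂ) + Complex.I) / 17) + ((1 : ℤ) : ℂ)) /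
      (((17 : ℕ) : ℂ) * ((1 : ℤ) : ℂ) * ((((-3 : ℝ) : ℂ) + Complex.I) / 17) + ((3 : ℤ) : ℂ)) =
      ((((6 : ℝ) : ℂ) + Complex.I) / 17) := by
    have e : (((17 : ℕ) : ℂ) * ((1 : ℤ) : ℂ) * ((((-3 : ℝ) : ℂ) + Complex.I) / 17) + ((3 : ℤ) : ℂ)) =
        Complex.I := by
      push_cast
      ring
    rw [e, div_eq_iff Complex.I_ne_zero]
    push_cast
    linear_combination (-1 / 17 : ℂ) * Complex.I_sq
  rw [h5] at h4
  have h6 := im_pos_aux
  rw [h4, Complex.add_im] at h6
  linarith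

end Pool.Agent.N971.EX
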