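import Pool.Agent.N971.EX.Val
import Pool.Agent.N971.EX.Per17
import Pool.Agent.N971.EX.Lat17
import Pool.Agent.N971.EX.Sgn
import Pool.Agent.N971.EX.Gs2
import Pool.Agent.N975.CHB

/-!
# The exact central values of the twists of `17a2` by negative discriminants
-/

set_option autoImplicit false
set_option linter.style.haveILetI false

open Complex Filter Topology Set UpperHalfPlane MatrixGroups CongruenceSubgroup ZMod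

namespace Pool.Agent.N971.EX

open Pool.Agent.N974.Gen
open Pool.Agent.N809.M17 (f17 X0 eigen17 param17 tors0)
open Pool.Agent.N975.S17 (exists_symb sumO sumE sumR sumRE)
open Pool.Agent.N972.P17 (Cm Cme Cr Cre cc S_DIAG S_DIAGE S_DIAGR S_DIAGRE)
open Pool.Agent.W97.MT (ap)
open Pool.Agent.Y700 (IsL Omega)
open Pool.Agent.N969.P15 (un Ev chE)

/-- the lattice of `17a2` and the scale of the odd symbol -/
theorem scale17 : ∃ (Λ : PeriodPair) (Op Om : ℝ), 0 < Op ∧ 0 < Om ∧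
    Λ.g₂ = ((273 : ℤ) : ℂ) / 12 ∧ Λ.g₃ = ((4455 : ℤ) : ℂ) / 216 ∧
    (∀ w : ℂ, w ∈ Λ.lattice ↔ ∃ a b : ℤ, w = a * Op + b * Om * Complex.I) ∧
    (II f17 (1 / 3)).im = Om / 2 := by
  obtain ⟨L, Λ, Op, Om, hOp, hOm, g2, g3, hL, k2, k3, hΛ⟩ := lat17b
  refine ⟨Λ, 2 * Op, 2 * Om, by positivity, by positivity, ?_, ?_, ?_, ?_⟩
  · rw [k2]; push_cast; norm_num
  · rw [k3]; push_cast; norm_num
  · intro w
    rw [hΛ]
  · have h1 := im_third_pos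
    rcases im_third L Op Om hOp hOm g2 g3 hL with h | h
    · rw [h]; ring
    · rw [h] at h1
      linarith

/-- **The central value in terms of the symbol.** -/
theorem value17 {n : ℕ} [NeZero n] (hn1 : 1 < n) (W : WeierstrassCurve ℤ)
    (h4 : W.c₄ = 273 * (n : ℤ) ^ 2) (h6 : W.c₆ = -(4455 * (n : ℤ) ^ 3))
    (χ : DirichletCharacter ℂ n) (hχ : χ.IsPrimitive) (hinv : χ⁻¹ = χ) (hodd : χ (-1) = -1)
    (hG : gaussSum χ (stdAddChar (N := n)) = Complex.I * ((Real.sqrt n : ℝ) : ℂ))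
    (w : ℕ → ℤ) (hw : ∀ u : ℕ, χ (u : ZMod n) = (w u : ℂ))
    (hv : ∀ p : ℕ, p.Prime → w p = 0 ∨ w p = 1 ∨ w p = -1)
    (ha : ∀ p : ℕ, p.Prime → ap W p = ap E17 p * w p)
    (hΔ : ∀ p : ℕ, p.Prime → ((p : ℤ) ∣ W.Δ ↔ p ∣ 17 ∨ w p = 0)) (K : ℤ)
    (hK : ∀ (s : ℚ → ℤ) (a : ℕ → ℤ), SymbG 17 s a → s (1 / 3) = 2 →
      ∑ u ∈ un n, w u * s ((u : ℚ) / n) = K) :
    0 < Omega W ∧ ∃ f : ℂ → ℂ, IsL W f ∧ 8 * f 1 = (K : ℂ) * ((Omega W : ℝ) : ℂ) := by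
  obtain ⟨Λ, Op, Om, hOp, hOm, g2, g3, hL, hk⟩ := scale17
  have hn0 : (0 : ℝ) < n := by exact_mod_cast (by omega : 0 < n)
  have hsn : (0 : ℝ) < √(n : ℝ) := Real.sqrt_pos.2 hn0
  have hΩ := omega_neg Λ Op Om hOp hOm g2 g3 hL n (by omega) W h4 h6
  obtain ⟨f, hf, hf1⟩ := value_odd eigen17 W hn1 χ hχ hinv hodd hG w hw hv ha hΔ
  obtain ⟨s, κ, hκ, hs, hg, h3⟩ := exists_symb eigen17
  have hκ' : κ = Om / 4 := by
    have h5 := hs (1 / 3)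
    rw [hk, h3] at h5
    push_cast at h5
    linarith
  refine ⟨by rw [hΩ]; positivity, f, hf, ?_⟩
  have hsum : ∑ a ∈ un n, (w a : ℝ) * (II f17 ((a : ℚ) / n)).im = Om / 4 * K := by
    rw [← hK s _ hg h3, ← hκ']
    push_cast
    rw [Finset.mul_sum]
    refine Finset.sum_congr rfl fun a _ => ?_
    rw [hs]
    ring
  rw [hf1, hsum, hΩ]
  push_cast
  have hsc : ((√(n : ℝ) : ℝ) : ℂ) ≠ 0 := by exact_mod_cast hsn.ne'
  field_simp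
  ring

section odd

variable {n : ℕ} (hs : Squarefree n) (h4 : n % 4 = 3) (W : WeierstrassCurve ℤ)
  (hc4 : W.c₄ = 273 * (n : ℤ) ^ 2) (hc6 : W.c₆ = -(4455 * (n : ℤ) ^ 3))
  (ha : ∀ p : ℕ, p.Prime → ap W p = ap E17 p * jacobiSym p n)
  (hΔ : ∀ p : ℕ, p.Prime → ((p : ℤ) ∣ W.Δ ↔ p ∣ 17 ∨ p ∣ n))
include hs h4 hc4 hc6 ha hΔ

theorem value17O (K : ℤ) (hK : ∀ (s : ℚ → ℤ) (a : ℕ → ℤ), SymbG 17 s a → s (1 / 3) = 2 →
      ∑ u ∈ un n, jacobiSym u n * s ((u : ℚ) / n) = K) :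
    0 < Omega W ∧ ∃ f : ℂ → ℂ, IsL W f ∧ 8 * f 1 = (K : ℂ) * ((Omega W : ℝ) : ℂ) := by
  have hodd : Odd n := Nat.odd_iff.2 (by omega)
  haveI : NeZero n := ⟨by omega⟩
  set d : Pool.Agent.H491R3.J.OS := ⟨n, hodd, hs, by omega⟩ with hd
  have hchi : ∀ m : ℕ, H491R3.J.chi d (m : ZMod n) = ((jacobiSym (m : ℤ) n : ℤ) : ℂ) :=
    H491R3.J.chi_natCast d
  have jz : ∀ p : ℕ, p.Prime → (jacobiSym (p : ℤ) n = 0 ↔ p ∣ n) := by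
    intro p hp
    rw [jacobiSym.eq_zero_iff_not_coprime, Int.gcd_natCast_natCast]
    have h9 : Nat.gcd p n = 1 ↔ ¬ p ∣ n := Nat.Prime.coprime_iff_not_dvd hp
    rw [ne_eq, h9, not_not]
  refine value17 (by omega) W hc4 hc6 (H491R3.J.chi d) (H491R3.J.chi_primitive d)
    (H491R3.J.chi_inv d) ?_ ?_ (fun u => jacobiSym u n) hchi ?_ ha ?_ K hK
  · have h9 := H491R3.J.chi_neg_one d
    have h10 : ¬ (d.1 % 4 = 1) := by
      change ¬ (n % 4 = 1)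
      omega
    rw [h9, if_neg h10]
  · rw [gauss_odd (H491R3.J.chi d) hchi, gJ_three hs h4]
  · intro p hp
    by_cases hpn : p ∣ n
    · exact Or.inl ((jz p hp).2 hpn)
    · right
      refine jacobiSym.eq_one_or_neg_one ?_
      rw [Int.gcd_natCast_natCast]
      exact (Nat.Prime.coprime_iff_not_dvd hp).2 hpn
  · intro p hp
    rw [hΔ p hp]
    have := jz p hp
    tauto

end odd

section even

variable {n : ℕ} (hE : Ev n) (W : WeierstrassCurve ℤ)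
  (hc4 : W.c₄ = 273 * (n : ℤ) ^ 2) (hc6 : W.c₆ = -(4455 * (n : ℤ) ^ 3))
  (ha : ∀ p : ℕ, p.Prime → ap W p = ap E17 p * chE n p)
  (hΔ : ∀ p : ℕ, p.Prime → ((p : ℤ) ∣ W.Δ ↔ p ∣ 17 ∨ p ∣ n))
include hE hc4 hc6 ha hΔ

open Pool.Agent.N975.ChE in
theorem value17E (K : ℤ) (hK : ∀ (s : ℚ → ℤ) (a : ℕ → ℤ), SymbG 17 s a → s (1 / 3) = 2 →
      ∑ u ∈ un n, chE n u * s ((u : ℚ) / n) = K) :
    0 < Omega W ∧ ∃ f : ℂ → ℂ, IsL W f ∧ 8 * f 1 = (K : ℂ) * ((Omega W : ℝ) : ℂ) := by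
  have hm := ev_mod hE
  have hn0 := ev_pos hE
  haveI : NeZero n := ⟨by omega⟩
  have jz : ∀ p : ℕ, p.Prime → (chE n p = 0 ↔ p ∣ n) := by
    intro p hp
    constructor
    · intro h0
      by_contra hcon
      rcases chE_pm hm ((Nat.Prime.coprime_iff_not_dvd hp).2 hcon) with h | h <;>
        rw [h] at h0 <;> norm_num at h0
    · intro h0
      exact chE_zero hm fun h => hp.one_lt.ne' (Nat.eq_one_of_dvd_coprimes h dvd_rfl h0)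
  refine value17 (by omega) W hc4 hc6 (chi n hm) (chi_primitive hE)
    (chi_inv n hm) ?_ (gauss_chE hE (chi n hm) (chi_nat n hm)) (fun u => chE n u) (chi_nat n hm)
    ?_ ha ?_ K hK
  · have h1 : ((n - 1 : ℕ) : ZMod n) = -1 := by
      rw [Nat.cast_sub (by omega), ZMod.natCast_self, Nat.cast_one, zero_sub]
    have h2 : chE n ((n - 1 : ℕ) : ℤ) = -1 := by
      rw [chE_mod hm (u := ((n - 1 : ℕ) : ℤ)) (v := -1) ⟨1, by omega⟩]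
      exact Pool.Agent.N975.CHB.chE_neg_one hE
    rw [← h1, chi_nat n hm, h2]
    norm_num
  · intro p hp
    by_cases hpn : p ∣ n
    · exact Or.inl ((jz p hp).2 hpn)
    · exact Or.inr (chE_pm hm ((Nat.Prime.coprime_iff_not_dvd hp).2 hpn))
  · intro p hp
    rw [hΔ p hp]
    have := jz p hp
    tauto

end even

/-- **`17` inert, odd discriminants** -/
theorem val_Cm (hD : S_DIAG) {n : ℕ} (hn : Cm n) (W : WeierstrassCurve ℤ)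
    (hc4 : W.c₄ = 273 * (n : ℤ) ^ 2) (hc6 : W.c₆ = -(4455 * (n : ℤ) ^ 3))
    (ha : ∀ p : ℕ, p.Prime → ap W p = ap E17 p * jacobiSym p n)
    (hΔ : ∀ p : ℕ, p.Prime → ((p : ℤ) ∣ W.Δ ↔ p ∣ 17 ∨ p ∣ n)) :
    0 < Omega W ∧ ∃ f : ℂ → ℂ, IsL W f ∧
      8 * f 1 = ((cc n ^ 2 : ℤ) : ℂ) * ((Omega W : ℝ) : ℂ) :=
  value17O hn.1 hn.2.1 W hc4 hc6 ha hΔ _ fun _ _ g h2 => sumO g h2 hD hn

/-- **`17` ramified, odd discriminants** -/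
theorem val_Cr (hD : S_DIAGR) {n : ℕ} (hn : Cr n) (W : WeierstrassCurve ℤ)
    (hc4 : W.c₄ = 273 * (n : ℤ) ^ 2) (hc6 : W.c₆ = -(4455 * (n : ℤ) ^ 3))
    (ha : ∀ p : ℕ, p.Prime → ap W p = ap E17 p * jacobiSym p n)
    (hΔ : ∀ p : ℕ, p.Prime → ((p : ℤ) ∣ W.Δ ↔ p ∣ 17 ∨ p ∣ n)) :
    0 < Omega W ∧ ∃ f : ℂ → ℂ, IsL W f ∧
      8 * f 1 = ((2 * cc n ^ 2 : ℤ) : ℂ) * ((Omega W : ℝ) : ℂ) :=
  value17O hn.1 hn.2.1 W hc4 hc6 ha hΔ _ fun _ _ g h2 => sumR g h2 hD hn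

/-- **`17` inert, even discriminants** -/
theorem val_Cme (hD : S_DIAGE) {n : ℕ} (hn : Cme n) (W : WeierstrassCurve ℤ)
    (hc4 : W.c₄ = 273 * (n : ℤ) ^ 2) (hc6 : W.c₆ = -(4455 * (n : ℤ) ^ 3))
    (ha : ∀ p : ℕ, p.Prime → ap W p = ap E17 p * chE n p)
    (hΔ : ∀ p : ℕ, p.Prime → ((p : ℤ) ∣ W.Δ ↔ p ∣ 17 ∨ p ∣ n)) :
    0 < Omega W ∧ ∃ f : ℂ → ℂ, IsL W f ∧
      8 * f 1 = ((cc n ^ 2 : ℤ) : ℂ) * ((Omega W : ℝ) : ℂ) :=
  value17E hn.1 W hc4 hc6 ha hΔ _ fun _ _ g h2 => sumE g h2 hD hn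

/-- **`17` ramified, even discriminants** -/
theorem val_Cre (hD : S_DIAGRE) {n : ℕ} (hn : Cre n) (W : WeierstrassCurve ℤ)
    (hc4 : W.c₄ = 273 * (n : ℤ) ^ 2) (hc6 : W.c₆ = -(4455 * (n : ℤ) ^ 3))
    (ha : ∀ p : ℕ, p.Prime → ap W p = ap E17 p * chE n p)
    (hΔ : ∀ p : ℕ, p.Prime → ((p : ℤ) ∣ W.Δ ↔ p ∣ 17 ∨ p ∣ n)) :
    0 < Omega W ∧ ∃ f : ℂ → ℂ, IsL W f ∧
      8 * f 1 = ((2 * cc n ^ 2 : ℤ) : ℂ) * ((Omega W : ℝ) : ℂ) :=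
  value17E hn.1 W hc4 hc6 ha hΔ _ fun _ _ g h2 => sumRE g h2 hD hn

end Pool.Agent.N971.EX
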